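import Pool.Agent.H54.TSUM.Scheme

/-!
The core of the lower bound: for suitable parameters no two-probe scheme exists
(3SUM-Indexing cell probe lower bound, MP_e016b3_lc).
-/

namespace Pool.H54.TSUM

open Finset Function Classical

variable {n U S W : ℕ}

/-- runs along walks -/
theorem run_of_walk {σ V V' : Type*} [DecidableEq V] [DecidableEq V'] (Rel : ℕ → σ → σ → Prop) (A : Arr n U)
    (E : Finset (Label n)) (L : Label n → V) (R : Label n → V') (sL sR : Label n → σ)
    (hL : ∀ g g', L g = L g' → sL g = sL g') (hR : ∀ g g', R g = R g' → sR g = sR g')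
    (hrel : ∀ g ∈ E, Rel (zv A g) (sL g) (sR g)) (g₀ : Label n)
    (k : ℕ) (h : Label n) (t : List (Label n))
    (hw : h :: t ∈ grow (wext E L R (L g₀)) k) :
    (Even t.length → Run Rel A 0 (h :: t) (sL g₀) (sR h)) ∧
    (¬ Even t.length → Run Rel A 0 (h :: t) (sL g₀) (sL h)) := by
  induction t generalizing k h with
  | nil =>
    cases k with
    | zero =>
      have : h :: [] ∈ ({[]} : Finset (List (Label n))) := hw
      rw [mem_singleton] at this
      exact absurd this (by simp)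
    | succ k =>
      rw [mem_grow_succ] at hw
      obtain ⟨_, hh⟩ := hw
      have hh' := mem_filter.1 (show h ∈ E.filter (fun g => L g = L g₀) from hh)
      refine ⟨fun _ => ⟨sL g₀, rfl, ?_⟩, fun hc => absurd (by simp) hc⟩
      have hev : Even (0 + ([] : List (Label n)).length) := by simp
      unfold Step
      rw [if_pos hev, ← hL h g₀ hh'.2]
      exact hrel h hh'.1
  | cons h' t' ih =>
    cases k with
    | zero =>
      have : h :: h' :: t' ∈ ({[]} : Finset (List (Label n))) := hw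
      rw [mem_singleton] at this
      exact absurd this (by simp)
    | succ k =>
      rw [mem_grow_succ] at hw
      obtain ⟨hw', hh⟩ := hw
      obtain ⟨ih1, ih2⟩ := ih k h' hw'
      have hh' : h ∈ (if Even t'.length then E.filter (fun g => R g = R h')
        else E.filter (fun g => L g = L h')) := hh
      by_cases he : Even t'.length
      · rw [if_pos he, mem_filter] at hh'
        have hodd : ¬ Even (h' :: t').length := by
          rw [List.length_cons]
          intro hc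
          exact (Nat.even_add_one.1 hc) he
        refine ⟨fun hc => absurd hc hodd, fun _ => ⟨sR h', ih1 he, ?_⟩⟩
        unfold Step
        rw [zero_add, if_neg hodd, ← hR h h' hh'.2]
        exact hrel h hh'.1
      · rw [if_neg he, mem_filter] at hh'
        have hev : Even (h' :: t').length := by
          rw [List.length_cons]
          exact Nat.even_add_one.2 he
        refine ⟨fun _ => ⟨sL h', ih2 he, ?_⟩, fun hc => absurd hev hc⟩
        unfold Step
        rw [zero_add, if_pos hev, ← hL h h' hh'.2]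
        exact hrel h hh'.1

/-- For arrays outside of the rare events, a configuration exists. -/
theorem exists_conf (P : TwoProbe S W) (A : Arr n U) (M : Fin S → Fin W)
    (hM : Correct P A M) (K q p m₀ r D : ℕ) (hp : 0 < p) (hr : 0 < r) (hD : 0 < D)
    (γ : ℕ → Fin S × ℕ) (hγ : ∀ z, (γ z).1 = P.p1 z)
    (hγS : ((range (2 * U)).image γ).card ≤ 2 * S)
    (ha : ∀ i j : Fin S, (Zs P U (i, M i) (j, M j)).card ≤ 4)
    (hb : ∀ s : Fin S × Fin W, ((univ : Finset (Label n)).filter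
        (fun g => zv A g ∈ heavy U (Zs P U) K s)).card ≤ (q - 1) ^ 2)
    (hc : ∀ s : Fin S × Fin W, ((univ : Finset (Label n)).filter
        (fun g => zv A g ∈ heavy U (fun a b => Zs P U b a) K s)).card ≤ (q - 1) ^ 2)
    (hd : ∀ α : Vtx n, ∀ v ∈ (range (2 * U)).image γ,
      ((univ : Finset (Label n)).filter (fun g => Touches α g ∧
        zv A g ∈ (range (2 * U)).filter (fun z => γ z = v))).card ≤ m₀)
    (hq : 2 * (2 * (S * (q - 1) ^ 2)) ≤ n ^ 2)
    (hrS : n ^ 2 ≤ r * S)
    (hDS : (D - 1) * (10 * S) < n ^ 2)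
    (hnum : ((2 * (12 * p) * m₀ + (12 * p) ^ 2 + 1) * r) ^ (12 * p) * (3 * S) ^ 3 <
      r ^ p * D ^ (12 * p)) :
    ∃ w : Fin 3 → List (Label n),
      (∀ i, (w i).length = 4 * p) ∧ (∃ a b : Fin 3, a ≠ b ∧ ∃ α β : Vtx n,
      (dg (w a) α = 1 ∧ ∀ i, i ≠ a → dg (w i) α = 0) ∧
      (dg (w b) β = 1 ∧ ∀ i, i ≠ b → dg (w i) β = 0)) ∧
      ∃ s t, ∀ i, Run (RelZ (Zs P U) K) A 0 (w i) s t := by
  -- states of labels
  set iL : Label n → Fin S := fun g => P.p1 (zv A g) with hiL
  set jR : Label n → Fin S := fun g => P.p2 (zv A g) (M (iL g)) with hjR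
  set sL : Label n → Fin S × Fin W := fun g => (iL g, M (iL g)) with hsL
  set sR : Label n → Fin S × Fin W := fun g => (jR g, M (jR g)) with hsR
  have hzmem : ∀ g, zv A g ∈ Zs P U (sL g) (sR g) := by
    intro g
    unfold Zs
    refine mem_filter.2 ⟨mem_range.2 (zv_lt A g), rfl, rfl, ?_⟩
    exact (hM (zv A g)).2 ⟨g, rfl⟩
  -- good labels
  set E₀ : Finset (Label n) := univ.filter (fun g => zv A g ∉ heavy U (Zs P U) K (sL g) ∧
    zv A g ∉ heavy U (fun a b => Zs P U b a) K (sR g)) with hE₀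
  have hrel : ∀ g ∈ E₀, RelZ (Zs P U) K (zv A g) (sL g) (sR g) := by
    intro g hg
    rw [hE₀, mem_filter] at hg
    obtain ⟨_, h1, h2⟩ := hg
    refine ⟨hzmem g, ha _ _, ?_, ?_⟩
    · by_contra hcon
      exact h1 (mem_filter.2 ⟨mem_range.2 (zv_lt A g), not_le.1 hcon⟩)
    · by_contra hcon
      exact h2 (mem_filter.2 ⟨mem_range.2 (zv_lt A g), not_le.1 hcon⟩)
  have hbadL : ((univ : Finset (Label n)).filter
      (fun g => zv A g ∈ heavy U (Zs P U) K (sL g))).card ≤ S * (q - 1) ^ 2 := by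
    have hsub : (univ : Finset (Label n)).filter
        (fun g => zv A g ∈ heavy U (Zs P U) K (sL g)) ⊆
        (univ : Finset (Fin S)).biUnion (fun i => univ.filter
          (fun g => zv A g ∈ heavy U (Zs P U) K (i, M i))) := by
      intro g hg
      rw [mem_biUnion]
      exact ⟨iL g, mem_univ _, mem_filter.2 ⟨mem_univ _, (mem_filter.1 hg).2⟩⟩
    refine (card_le_card hsub).trans ((card_biUnion_le_card_mul _ _ _
      (fun i _ => hb (i, M i))).trans ?_)
    rw [card_univ, Fintype.card_fin]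
  have hbadR : ((univ : Finset (Label n)).filter
      (fun g => zv A g ∈ heavy U (fun a b => Zs P U b a) K (sR g))).card ≤ S * (q - 1) ^ 2 := by
    have hsub : (univ : Finset (Label n)).filter
        (fun g => zv A g ∈ heavy U (fun a b => Zs P U b a) K (sR g)) ⊆
        (univ : Finset (Fin S)).biUnion (fun i => univ.filter
          (fun g => zv A g ∈ heavy U (fun a b => Zs P U b a) K (i, M i))) := by
      intro g hg
      rw [mem_biUnion]
      exact ⟨jR g, mem_univ _, mem_filter.2 ⟨mem_univ _, (mem_filter.1 hg).2⟩⟩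
    refine (card_le_card hsub).trans ((card_biUnion_le_card_mul _ _ _
      (fun i _ => hc (i, M i))).trans ?_)
    rw [card_univ, Fintype.card_fin]
  have hcardE₀ : n ^ 2 ≤ E₀.card + 2 * (S * (q - 1) ^ 2) := by
    have hcov : (univ : Finset (Label n)) ⊆ E₀ ∪ (((univ : Finset (Label n)).filter
      (fun g => zv A g ∈ heavy U (Zs P U) K (sL g))) ∪ ((univ : Finset (Label n)).filter
      (fun g => zv A g ∈ heavy U (fun a b => Zs P U b a) K (sR g)))) := by
      intro g _
      rw [mem_union, mem_union, hE₀, mem_filter, mem_filter, mem_filter]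
      by_cases h1 : zv A g ∈ heavy U (Zs P U) K (sL g)
      · exact Or.inr (Or.inl ⟨mem_univ _, h1⟩)
      · by_cases h2 : zv A g ∈ heavy U (fun a b => Zs P U b a) K (sR g)
        · exact Or.inr (Or.inr ⟨mem_univ _, h2⟩)
        · exact Or.inl ⟨mem_univ _, h1, h2⟩
    have h1 := (card_le_card hcov).trans (card_union_le _ _)
    have h2 := card_union_le ((univ : Finset (Label n)).filter
      (fun g => zv A g ∈ heavy U (Zs P U) K (sL g))) ((univ : Finset (Label n)).filter
      (fun g => zv A g ∈ heavy U (fun a b => Zs P U b a) K (sR g)))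
    rw [card_univ, Fintype.card_prod, Fintype.card_fin] at h1
    rw [pow_two]
    omega
  have hE₀le : E₀.card ≤ n ^ 2 := by
    refine (card_filter_le _ _).trans ?_
    rw [card_univ, Fintype.card_prod, Fintype.card_fin, pow_two]
  -- left vertices
  obtain ⟨γL, hγL1, hγL2, hγL3⟩ := chunk E₀ (fun g => γ (zv A g)) r hr
  have himL : (E₀.image (fun g => γ (zv A g))).card ≤ 2 * S := by
    refine le_trans (card_le_card ?_) hγS
    intro v hv
    obtain ⟨g, _, rfl⟩ := mem_image.1 hv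
    exact mem_image_of_mem _ (mem_range.2 (zv_lt A g))
  have hS3 : (E₀.image γL).card ≤ 3 * S := by
    have h1 : r * (E₀.image γL).card ≤ r * S + r * (2 * S) :=
      hγL3.trans (Nat.add_le_add (hE₀le.trans hrS) (Nat.mul_le_mul_left _ himL))
    rw [← Nat.mul_add] at h1
    have := Nat.le_of_mul_le_mul_left h1 hr
    omega
  -- right vertices
  obtain ⟨γR, hγR1, hγR2, hγR3⟩ := chunk E₀ jR r hr
  have himR : (E₀.image jR).card ≤ S := by
    refine (card_le_univ _).trans ?_
    rw [Fintype.card_fin]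
  have hS2 : (E₀.image γR).card ≤ 2 * S := by
    have h1 : r * (E₀.image γR).card ≤ r * S + r * S :=
      hγR3.trans (Nat.add_le_add (hE₀le.trans hrS) (Nat.mul_le_mul_left _ himR))
    rw [← Nat.mul_add] at h1
    have := Nat.le_of_mul_le_mul_left h1 hr
    omega
  -- pruning
  obtain ⟨E, hEsub, hEne, hEdeg⟩ := prune γL γR D hD E₀ (by
    have h1 : (D - 1) * ((E₀.image γL).card + (E₀.image γR).card) ≤ (D - 1) * (5 * S) :=
      Nat.mul_le_mul_left _ (by omega)
    have h2 : (D - 1) * (10 * S) = 2 * ((D - 1) * (5 * S)) := by ring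
    omega)
  -- the graph lemma
  obtain ⟨u, v, w, hw, hlast, hpriv⟩ := graph_lemma E γL γR p m₀ r D (3 * S) hp hr hEne hEdeg
    (by
      intro α v
      by_cases hv : ∃ g ∈ E, γL g = v
      · obtain ⟨g₁, _, hg₁v⟩ := hv
        have hv1 : v.1 ∈ (range (2 * U)).image γ := by
          rw [← hg₁v, hγL1]
          exact mem_image_of_mem _ (mem_range.2 (zv_lt A g₁))
        refine le_trans (card_le_card ?_) (hd α v.1 hv1)
        intro g hg
        obtain ⟨_, h1, h2⟩ := mem_filter.1 hg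
        refine mem_filter.2 ⟨mem_univ _, h2, mem_filter.2 ⟨mem_range.2 (zv_lt A g), ?_⟩⟩
        rw [← h1, hγL1]
      · have : E.filter (fun g => γL g = v ∧ Touches α g) = ∅ := by
          rw [filter_eq_empty_iff]
          intro g hg hcon
          exact hv ⟨g, hg, hcon.1⟩
        rw [this]; exact Nat.zero_le _)
    (fun v => (card_le_card (filter_subset_filter _ hEsub)).trans (hγL2 v))
    (fun v => (card_le_card (filter_subset_filter _ hEsub)).trans (hγR2 v))
    ((card_le_card (image_subset_image hEsub)).trans hS3) hnum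
  have hlen : ∀ i, (w i).length = 4 * p := fun i => length_of_mem_grow _ _ _ (hw i)
  refine ⟨w, hlen, hpriv, ?_⟩
  have hLs : ∀ g g', γL g = γL g' → sL g = sL g' := by
    intro g g' h
    have h1 : γ (zv A g) = γ (zv A g') := by rw [← hγL1 g, ← hγL1 g', h]
    have h2 : iL g = iL g' := by
      show P.p1 (zv A g) = P.p1 (zv A g')
      rw [← hγ, ← hγ, h1]
    show (iL g, M (iL g)) = (iL g', M (iL g'))
    rw [h2]
  have hRs : ∀ g g', γR g = γR g' → sR g = sR g' := by
    intro g g' h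
    have h1 : jR g = jR g' := by rw [← hγR1 g, ← hγR1 g', h]
    show (jR g, M (jR g)) = (jR g', M (jR g'))
    rw [h1]
  have hrelE : ∀ g ∈ E, RelZ (Zs P U) K (zv A g) (sL g) (sR g) := fun g hg => hrel g (hEsub hg)
  -- the vertices u and v are left vertices of labels
  have hu : ∃ g₀, γL g₀ = u := by
    have h0 := hw 0
    have hl0 := hlen 0
    -- the oldest label
    have aux : ∀ (k : ℕ) (l : List (Label n)), l ∈ grow (wext E γL γR u) k → 0 < l.length →
        ∃ g₀, γL g₀ = u := by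
      intro k
      induction k with
      | zero =>
        intro l hl hpos
        have := length_of_mem_grow _ _ _ hl
        omega
      | succ k ih =>
        intro l hl _
        obtain ⟨g, l', rfl, h1, h2⟩ := exists_of_mem_grow_succ _ k l hl
        cases l' with
        | nil =>
          have h3 : g ∈ E.filter (fun g => γL g = u) := h2
          exact ⟨g, (mem_filter.1 h3).2⟩
        | cons h t => exact ih (h :: t) h1 (by simp)
    exact aux _ _ h0 (by omega)
  obtain ⟨g₀, rfl⟩ := hu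
  obtain ⟨h₀, t₀, hw0, hv0⟩ := hlast 0
  refine ⟨sL g₀, sL h₀, fun i => ?_⟩
  obtain ⟨hi, ti, hwi, hvi⟩ := hlast i
  have h1 := hw i
  rw [hwi] at h1
  have h2 := (run_of_walk (RelZ (Zs P U) K) A E γL γR sL sR hLs hRs hrelE g₀ _ hi ti h1).2 (by
    have h3 := hlen i
    rw [hwi, List.length_cons] at h3
    intro hc
    obtain ⟨c, hc⟩ := hc
    omega)
  rw [hwi]
  have h3 : sL hi = sL h₀ := hLs _ _ (hvi.trans hv0.symm)
  rw [← h3]
  exact h2

/-- The core lower bound with explicit numerical conditions. -/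
theorem core (P : TwoProbe S W) (hP : ∀ A : Arr n U, ∃ M : Fin S → Fin W, Correct P A M)
    (K q p m₀ r D rv : ℕ) (hp : 0 < p) (hr : 0 < r) (hD : 0 < D) (hK : 0 < K) (hU : 0 < U)
    (hrv : 0 < rv) (hrv1 : 2 * U ≤ rv * S)
    (hq : 2 * (2 * (S * (q - 1) ^ 2)) ≤ n ^ 2)
    (hrS : n ^ 2 ≤ r * S)
    (hDS : (D - 1) * (10 * S) < n ^ 2)
    (hnum : ((2 * (12 * p) * m₀ + (12 * p) ^ 2 + 1) * r) ^ (12 * p) * (3 * S) ^ 3 <
      r ^ p * D ^ (12 * p))
    (h6a : 6 * ((S * W) ^ 2 * ((n ^ 2) ^ 3 * (n ^ 2) ^ 3)) ≤ U ^ 3)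
    (h6b : 6 * ((S * W) * ((n ^ 2) ^ q * (4 * (S * W)) ^ q)) ≤ U ^ q * (K + 1) ^ q)
    (h6d : 6 * ((2 * n * (2 * S)) * (n ^ m₀ * rv ^ m₀)) ≤ U ^ m₀)
    (h6F : 6 * ((((n ^ 2) ^ (4 * p)) ^ 3 * (9 * (2 * n) ^ 2)) *
      ((S * W) * (K ^ (4 * p) * (K ^ (4 * p) * (K ^ (4 * p) * (K ^ (4 * p) * (K ^ (4 * p) *
        (4 * 4)))))))) ≤ U ^ 2) : False := by
  choose M hM using hP
  obtain ⟨γ, hγ1, hγ2, hγ3⟩ := chunk (range (2 * U)) P.p1 rv hrv
  have hγS : ((range (2 * U)).image γ).card ≤ 2 * S := by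
    have h1 : ((range (2 * U)).image P.p1).card ≤ S := by
      refine (card_le_univ _).trans ?_
      rw [Fintype.card_fin]
    rw [card_range] at hγ3
    have h2 : rv * ((range (2 * U)).image γ).card ≤ rv * S + rv * S :=
      hγ3.trans (Nat.add_le_add hrv1 (Nat.mul_le_mul_left _ h1))
    rw [← Nat.mul_add] at h2
    have := Nat.le_of_mul_le_mul_left h2 hrv
    omega
  set Ba : Finset (Arr n U) := univ.filter (fun A => ∃ i j : Fin S,
      4 < (Zs P U (i, M A i) (j, M A j)).card) with hBa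
  set Bb : Finset (Arr n U) := univ.filter (fun A => ∃ s : Fin S × Fin W,
      (q - 1) ^ 2 < ((univ : Finset (Label n)).filter
        (fun g => zv A g ∈ heavy U (Zs P U) K s)).card) with hBb
  set Bc : Finset (Arr n U) := univ.filter (fun A => ∃ s : Fin S × Fin W,
      (q - 1) ^ 2 < ((univ : Finset (Label n)).filter
        (fun g => zv A g ∈ heavy U (fun a b => Zs P U b a) K s)).card) with hBc
  set Bd : Finset (Arr n U) := univ.filter (fun A => EvD γ ((range (2 * U)).image γ) m₀ A)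
    with hBd
  set BF : Finset (Arr n U) := univ.filter (fun A => ∃ w : Fin 3 → List (Label n),
      (∀ i, (w i).length = 4 * p) ∧ (∃ a b : Fin 3, a ≠ b ∧ ∃ α β : Vtx n,
      (dg (w a) α = 1 ∧ ∀ i, i ≠ a → dg (w i) α = 0) ∧
      (dg (w b) β = 1 ∧ ∀ i, i ≠ b → dg (w i) β = 0)) ∧
      ∃ s t, ∀ i, Run (RelZ (Zs P U) K) A 0 (w i) s t) with hBF
  have hcardσ : Fintype.card (Fin S × Fin W) = S * W := by
    rw [Fintype.card_prod, Fintype.card_fin, Fintype.card_fin]
  have hUn : 0 < U ^ (2 * n) := Nat.pow_pos hU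
  have ca : 6 * Ba.card ≤ U ^ (2 * n) := by
    have h1 := event_a P M hM
    rw [← hBa] at h1
    have h2 : (6 * Ba.card) * U ^ 3 ≤ U ^ (2 * n) * U ^ 3 := by
      calc (6 * Ba.card) * U ^ 3 = 6 * (Ba.card * U ^ 3) := by ring
        _ ≤ 6 * ((S * W) ^ 2 * ((n ^ 2) ^ 3 * (U ^ (2 * n) * (n ^ 2) ^ 3))) :=
            Nat.mul_le_mul_left _ h1
        _ = U ^ (2 * n) * (6 * ((S * W) ^ 2 * ((n ^ 2) ^ 3 * (n ^ 2) ^ 3))) := by ring
        _ ≤ U ^ (2 * n) * U ^ 3 := Nat.mul_le_mul_left _ h6a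
    exact Nat.le_of_mul_le_mul_right h2 (Nat.pow_pos hU)
  have hpos2 : 0 < U ^ q * (K + 1) ^ q := Nat.mul_pos (Nat.pow_pos hU) (Nat.pow_pos (by omega))
  have cb : 6 * Bb.card ≤ U ^ (2 * n) := by
    have h1 := event_b (n := n) (U := U) (Zs P U) K q
    rw [← hBb, hcardσ] at h1
    have h2 : (6 * Bb.card) * (U ^ q * (K + 1) ^ q) ≤ U ^ (2 * n) * (U ^ q * (K + 1) ^ q) := by
      calc (6 * Bb.card) * (U ^ q * (K + 1) ^ q) = 6 * (Bb.card * (U ^ q * (K + 1) ^ q)) := by ring
        _ ≤ 6 * ((S * W) * ((n ^ 2) ^ q * (U ^ (2 * n) * (4 * (S * W)) ^ q))) :=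
            Nat.mul_le_mul_left _ h1
        _ = U ^ (2 * n) * (6 * ((S * W) * ((n ^ 2) ^ q * (4 * (S * W)) ^ q))) := by ring
        _ ≤ U ^ (2 * n) * (U ^ q * (K + 1) ^ q) := Nat.mul_le_mul_left _ h6b
    exact Nat.le_of_mul_le_mul_right h2 hpos2
  have cc : 6 * Bc.card ≤ U ^ (2 * n) := by
    have h1 := event_b (n := n) (U := U) (fun a b => Zs P U b a) K q
    rw [← hBc, hcardσ] at h1
    have h2 : (6 * Bc.card) * (U ^ q * (K + 1) ^ q) ≤ U ^ (2 * n) * (U ^ q * (K + 1) ^ q) := by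
      calc (6 * Bc.card) * (U ^ q * (K + 1) ^ q) = 6 * (Bc.card * (U ^ q * (K + 1) ^ q)) := by ring
        _ ≤ 6 * ((S * W) * ((n ^ 2) ^ q * (U ^ (2 * n) * (4 * (S * W)) ^ q))) :=
            Nat.mul_le_mul_left _ h1
        _ = U ^ (2 * n) * (6 * ((S * W) * ((n ^ 2) ^ q * (4 * (S * W)) ^ q))) := by ring
        _ ≤ U ^ (2 * n) * (U ^ q * (K + 1) ^ q) := Nat.mul_le_mul_left _ h6b
    exact Nat.le_of_mul_le_mul_right h2 hpos2
  have cd : 6 * Bd.card ≤ U ^ (2 * n) := by
    have h1 := event_d (n := n) (U := U) γ ((range (2 * U)).image γ) rv m₀ hγ2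
    rw [← hBd] at h1
    have h2 : (6 * Bd.card) * U ^ m₀ ≤ U ^ (2 * n) * U ^ m₀ := by
      calc (6 * Bd.card) * U ^ m₀ = 6 * (Bd.card * U ^ m₀) := by ring
        _ ≤ 6 * ((2 * n * ((range (2 * U)).image γ).card) *
              (n ^ m₀ * (U ^ (2 * n) * rv ^ m₀))) := Nat.mul_le_mul_left _ h1
        _ ≤ 6 * ((2 * n * (2 * S)) * (n ^ m₀ * (U ^ (2 * n) * rv ^ m₀))) :=
            Nat.mul_le_mul_left _ (Nat.mul_le_mul_right _ (Nat.mul_le_mul_left _ hγS))
        _ = U ^ (2 * n) * (6 * ((2 * n * (2 * S)) * (n ^ m₀ * rv ^ m₀))) := by ring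
        _ ≤ U ^ (2 * n) * U ^ m₀ := Nat.mul_le_mul_left _ h6d
    exact Nat.le_of_mul_le_mul_right h2 (Nat.pow_pos hU)
  have cF : 6 * BF.card ≤ U ^ (2 * n) := by
    have h1 := all_conf_count (n := n) (U := U) (RelZ (Zs P U) K) K 4 (4 * p) hK
      (fun z s => relZ_right _ _ _ _) (fun z t => relZ_left _ _ _ _)
      (fun s t => relZ_z _ _ _ _ _)
    rw [← hBF, hcardσ] at h1
    have h2 : (6 * BF.card) * U ^ 2 ≤ U ^ (2 * n) * U ^ 2 := by
      calc (6 * BF.card) * U ^ 2 = 6 * (BF.card * U ^ 2) := by ring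
        _ ≤ 6 * ((((n ^ 2) ^ (4 * p)) ^ 3 * (9 * (2 * n) ^ 2)) * (U ^ (2 * n) *
            ((S * W) * (K ^ (4 * p) * (K ^ (4 * p) * (K ^ (4 * p) * (K ^ (4 * p) *
            (K ^ (4 * p) * (4 * 4))))))))) := Nat.mul_le_mul_left _ h1
        _ = U ^ (2 * n) * (6 * ((((n ^ 2) ^ (4 * p)) ^ 3 * (9 * (2 * n) ^ 2)) *
            ((S * W) * (K ^ (4 * p) * (K ^ (4 * p) * (K ^ (4 * p) * (K ^ (4 * p) *
            (K ^ (4 * p) * (4 * 4))))))))) := by ring
        _ ≤ U ^ (2 * n) * U ^ 2 := Nat.mul_le_mul_left _ h6F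
    exact Nat.le_of_mul_le_mul_right h2 (Nat.pow_pos hU)
  have hcover : (univ : Finset (Arr n U)) ⊆ Ba ∪ (Bb ∪ (Bc ∪ (Bd ∪ BF))) := by
    intro A _
    by_contra hcon
    rw [mem_union, mem_union, mem_union, mem_union] at hcon
    push Not at hcon
    obtain ⟨na, nb, nc, nd, nF⟩ := hcon
    apply nF
    refine mem_filter.2 ⟨mem_univ _, ?_⟩
    refine exists_conf P A (M A) (hM A) K q p m₀ r D hp hr hD γ hγ1 hγS ?_ ?_ ?_ ?_
      hq hrS hDS hnum
    · intro i j
      by_contra h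
      exact na (mem_filter.2 ⟨mem_univ _, i, j, not_le.1 h⟩)
    · intro s
      by_contra h
      exact nb (mem_filter.2 ⟨mem_univ _, s, not_le.1 h⟩)
    · intro s
      by_contra h
      exact nc (mem_filter.2 ⟨mem_univ _, s, not_le.1 h⟩)
    · intro α v hv
      by_contra h
      exact nd (mem_filter.2 ⟨mem_univ _, α, v, hv, (not_le.1 h).le⟩)
  have hcard := card_le_card hcover
  have hu : (univ : Finset (Arr n U)).card = U ^ (2 * n) := by
    rw [card_univ, Fintype.card_fun, Fintype.card_fin, Fintype.card_sum, Fintype.card_fin, two_mul]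
  rw [hu] at hcard
  have e1 := card_union_le Ba (Bb ∪ (Bc ∪ (Bd ∪ BF)))
  have e2 := card_union_le Bb (Bc ∪ (Bd ∪ BF))
  have e3 := card_union_le Bc (Bd ∪ BF)
  have e4 := card_union_le Bd BF
  omega

end Pool.H54.TSUM
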