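import Pool.Agent.H54.TSUM.Core

/-!
Choice of parameters and the lower bound for two adaptive probes in natural number form
(3SUM-Indexing cell probe lower bound, MP_e016b3_lc).
-/

namespace Pool.H54.TSUM

open Finset Function

theorem exists_root (e : ℕ) (he : 0 < e) (U : ℕ) : ∃ K, K ^ e ≤ U ∧ U < (K + 1) ^ e := by
  induction U with
  | zero => exact ⟨0, by rw [zero_pow (by omega)], by rw [zero_add, one_pow]; exact Nat.one_pos⟩
  | succ U ih =>
    obtain ⟨K, h1, h2⟩ := ih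
    by_cases h : (K + 1) ^ e ≤ U + 1
    · refine ⟨K + 1, h, ?_⟩
      have h3 : (K + 1) ^ e < (K + 1 + 1) ^ e := Nat.pow_lt_pow_left (by omega) (by omega)
      omega
    · exact ⟨K, by omega, by omega⟩

/-- padding of the memory -/
def pad {S W : ℕ} (P : TwoProbe S W) (S' : ℕ) (h : S ≤ S') : TwoProbe S' W where
  p1 := fun z => Fin.castLE h (P.p1 z)
  p2 := fun z x => Fin.castLE h (P.p2 z x)
  ans := P.ans

theorem pad_correct {n U S W : ℕ} (P : TwoProbe S W) (S' : ℕ) (h : S ≤ S') (A : Arr n U)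
    (hA : ∃ M : Fin S → Fin W, Correct P A M) :
    ∃ M : Fin S' → Fin W, Correct (pad P S' h) A M := by
  obtain ⟨M, hM⟩ := hA
  have hrun : ∀ z, (pad P S' h).run
      (fun i => if hi : i.val < S then M ⟨i.val, hi⟩ else M (P.p1 0)) z = P.run M z := by
    intro z
    unfold TwoProbe.run pad
    simp
  exact ⟨_, fun z => by rw [hrun z]; exact hM z⟩

theorem final_num (n U S' W K C p : ℕ) (hppos : 0 < p) (hn : 3456 ≤ n)
    (hSW : S' * W ≤ U * n ^ (C + 2)) (hKn : n ^ (C + 12) ≤ K) (hK1 : K ^ (24 * p) ≤ U) :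
    6 * ((((n ^ 2) ^ (4 * p)) ^ 3 * (9 * (2 * n) ^ 2)) *
      ((S' * W) * (K ^ (4 * p) * (K ^ (4 * p) * (K ^ (4 * p) * (K ^ (4 * p) * (K ^ (4 * p) *
        (4 * 4)))))))) ≤ U ^ 2 := by
  have hnpos : 0 < n := by omega
  have hK4 : 3456 * n ^ (24 * p + C + 4) ≤ K ^ (4 * p) := by
    calc 3456 * n ^ (24 * p + C + 4) ≤ n * n ^ (24 * p + C + 4) :=
          Nat.mul_le_mul_right _ hn
      _ = n ^ (24 * p + C + 5) := by ring
      _ ≤ n ^ ((C + 12) * (4 * p)) := by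
          refine Nat.pow_le_pow_right hnpos ?_
          nlinarith [Nat.mul_le_mul_left C hppos]
      _ = (n ^ (C + 12)) ^ (4 * p) := by rw [← pow_mul]
      _ ≤ K ^ (4 * p) := Nat.pow_le_pow_left hKn _
  have hK24 : K ^ (24 * p) = K ^ (4 * p) * (K ^ (4 * p) * (K ^ (4 * p) * (K ^ (4 * p) *
      (K ^ (4 * p) * K ^ (4 * p))))) := by
    rw [← pow_add, ← pow_add, ← pow_add, ← pow_add, ← pow_add]; congr 1; omega
  have hn24 : ((n ^ 2) ^ (4 * p)) ^ 3 = n ^ (24 * p) := by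
    rw [← pow_mul, ← pow_mul]; congr 1; omega
  have hcomb : n ^ (24 * p + C + 4) = n ^ (24 * p) * n ^ 2 * n ^ (C + 2) := by
    rw [← pow_add, ← pow_add]; congr 1; omega
  rw [hn24]
  rw [hcomb] at hK4
  rw [hK24] at hK1
  generalize K ^ (4 * p) = κ at *
  generalize n ^ (24 * p) = ν at *
  generalize n ^ (C + 2) = μ at *
  calc 6 * ((ν * (9 * (2 * n) ^ 2)) *
        ((S' * W) * (κ * (κ * (κ * (κ * (κ * (4 * 4))))))))
      ≤ 6 * ((ν * (9 * (2 * n) ^ 2)) *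
        ((U * μ) * (κ * (κ * (κ * (κ * (κ * (4 * 4)))))))) :=
        Nat.mul_le_mul_left _ (Nat.mul_le_mul_left _ (Nat.mul_le_mul_right _ hSW))
    _ = U * (κ * (κ * (κ * (κ * (κ * (3456 * (ν * n ^ 2 * μ))))))) := by ring
    _ ≤ U * (κ * (κ * (κ * (κ * (κ * κ))))) :=
        Nat.mul_le_mul_left _ (Nat.mul_le_mul_left _ (Nat.mul_le_mul_left _
          (Nat.mul_le_mul_left _ (Nat.mul_le_mul_left _ (Nat.mul_le_mul_left _ hK4)))))
    _ ≤ U * U := Nat.mul_le_mul_left _ hK1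
    _ = U ^ 2 := (pow_two U).symm

theorem main_nat (k C : ℕ) (hk : 2 ≤ k) : ∃ c₀ n₀ : ℕ, ∀ n U W S : ℕ, n₀ ≤ n → n ^ c₀ ≤ U →
    W ≤ U * n ^ C → ∀ P : TwoProbe S W,
    (∀ A : Arr n U, ∃ M : Fin S → Fin W, Correct P A M) → n ^ (2 * k - 1) < S ^ k := by
  set p := 7 * k with hp
  set q := 48 * p with hq
  set C₂ := 2 * (12 * p) * 8 + (12 * p) ^ 2 + 1 with hC₂
  refine ⟨24 * p * (C + 12) + ((C + 2) * (q + 1) + 2 * q + 1) + (2 * C + 17),
    (4 * (q - 1) ^ 2 + 10) ^ k + 27 * (40 * C₂) ^ (12 * p) + 6 * 4 ^ q + 10077696, ?_⟩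
  intro n U W S hn hU hW P hP
  by_contra hcon
  rw [not_lt] at hcon
  have hn1 : (4 * (q - 1) ^ 2 + 10) ^ k ≤ n := by omega
  have hn2 : 27 * (40 * C₂) ^ (12 * p) ≤ n := by omega
  have hn3 : 6 * 4 ^ q ≤ n := by omega
  have hn4 : 10077696 ≤ n := by omega
  clear hn
  have hnpos : 0 < n := by omega
  have hkpos : 0 < k := by omega
  have hppos : 0 < p := by omega
  obtain ⟨t, ht1, ht2⟩ := exists_root k hkpos n
  obtain ⟨K, hK1, hK2⟩ := exists_root (24 * p) (by omega) U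
  -- t is large
  have htlarge : 4 * (q - 1) ^ 2 + 10 ≤ t := by
    have h1 : (4 * (q - 1) ^ 2 + 10) ^ k < (t + 1) ^ k := lt_of_le_of_lt hn1 ht2
    have h2 := lt_of_pow_lt_pow_left₀ k (Nat.zero_le _) h1
    omega
  have htpos : 0 < t := by omega
  -- U is large
  have hUn : ∀ e, e ≤ 24 * p * (C + 12) + ((C + 2) * (q + 1) + 2 * q + 1) + (2 * C + 17) →
      n ^ e ≤ U := fun e he => (Nat.pow_le_pow_right hnpos he).trans hU
  have hUpos : 0 < U := lt_of_lt_of_le (Nat.pow_pos hnpos) hU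
  set S' := n ^ 2 / t with hS'
  have hSS' : S ≤ S' := by
    rw [hS', Nat.le_div_iff_mul_le htpos]
    have h1 : (S * t) ^ k ≤ (n ^ 2) ^ k := by
      calc (S * t) ^ k = S ^ k * t ^ k := mul_pow _ _ _
        _ ≤ n ^ (2 * k - 1) * n := Nat.mul_le_mul hcon ht1
        _ = n ^ (2 * k - 1 + 1) := (pow_succ _ _).symm
        _ = (n ^ 2) ^ k := by rw [← pow_mul]; congr 1; omega
    exact le_of_pow_le_pow_left₀ (by omega) (Nat.zero_le _) h1
  have hS't : S' * t ≤ n ^ 2 := Nat.div_mul_le_self _ _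
  have hS't2 : n ^ 2 < (S' + 1) * t := by
    have := Nat.lt_div_mul_add (a := n ^ 2) htpos
    rw [← hS'] at this
    rw [Nat.add_mul, Nat.one_mul]; exact this
  have ht2n : t ^ 2 ≤ n := (Nat.pow_le_pow_right htpos hk).trans ht1
  have htn : t ≤ n := by
    calc t = t ^ 1 := (pow_one t).symm
      _ ≤ t ^ 2 := Nat.pow_le_pow_right htpos (by omega)
      _ ≤ n := ht2n
  have hS'pos : 0 < S' := by
    rw [hS']
    refine Nat.div_pos ?_ htpos
    calc t ≤ n := htn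
      _ = n ^ 1 := (pow_one n).symm
      _ ≤ n ^ 2 := Nat.pow_le_pow_right hnpos (by omega)
  have hS'n : S' ≤ n ^ 2 := Nat.div_le_self _ _
  have hrS : n ^ 2 ≤ (2 * t) * S' := by
    have h1 : (S' + 1) * t ≤ (2 * t) * S' := by
      have : t * 1 ≤ t * S' := Nat.mul_le_mul_left _ hS'pos
      nlinarith
    omega
  -- the block parameter
  set D := t / 10 with hD
  have hDpos : 0 < D := Nat.div_pos (by omega) (by omega)
  have hD1 : 10 * D ≤ t := Nat.mul_div_le _ _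
  have hD2 : 2 * t ≤ 40 * D := by omega
  have hqS : 2 * (2 * (S' * (q - 1) ^ 2)) ≤ n ^ 2 := by
    calc 2 * (2 * (S' * (q - 1) ^ 2)) = S' * (4 * (q - 1) ^ 2) := by ring
      _ ≤ S' * t := Nat.mul_le_mul_left _ (by omega)
      _ ≤ n ^ 2 := hS't
  have hDS : (D - 1) * (10 * S') < n ^ 2 := by
    calc (D - 1) * (10 * S') < D * (10 * S') :=
          Nat.mul_lt_mul_of_pos_right (by omega) (by omega)
      _ = (10 * D) * S' := by ring
      _ ≤ t * S' := Nat.mul_le_mul_right _ hD1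
      _ = S' * t := mul_comm _ _
      _ ≤ n ^ 2 := hS't
  have hnum : ((2 * (12 * p) * 8 + (12 * p) ^ 2 + 1) * (2 * t)) ^ (12 * p) * (3 * S') ^ 3 <
      (2 * t) ^ p * D ^ (12 * p) := by
    rw [← hC₂]
    have h1 : (C₂ * (2 * t)) ^ (12 * p) ≤ (40 * C₂) ^ (12 * p) * D ^ (12 * p) := by
      rw [← mul_pow]
      refine Nat.pow_le_pow_left ?_ _
      calc C₂ * (2 * t) ≤ C₂ * (40 * D) := Nat.mul_le_mul_left _ hD2
        _ = 40 * C₂ * D := by ring
    have h2 : (3 * S') ^ 3 ≤ 27 * n ^ 6 := by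
      calc (3 * S') ^ 3 = 27 * S' ^ 3 := by ring
        _ ≤ 27 * (n ^ 2) ^ 3 := Nat.mul_le_mul_left _ (Nat.pow_le_pow_left hS'n 3)
        _ = 27 * n ^ 6 := by ring
    have h3 : n ^ 7 < (2 * t) ^ p := by
      calc n ^ 7 < ((t + 1) ^ k) ^ 7 := Nat.pow_lt_pow_left ht2 (by omega)
        _ = (t + 1) ^ p := by rw [← pow_mul, hp]; congr 1; omega
        _ ≤ (2 * t) ^ p := Nat.pow_le_pow_left (by omega) _
    have hDp : 0 < D ^ (12 * p) := Nat.pow_pos hDpos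
    calc (C₂ * (2 * t)) ^ (12 * p) * (3 * S') ^ 3
        ≤ ((40 * C₂) ^ (12 * p) * D ^ (12 * p)) * (27 * n ^ 6) := Nat.mul_le_mul h1 h2
      _ = (27 * (40 * C₂) ^ (12 * p)) * n ^ 6 * D ^ (12 * p) := by ring
      _ ≤ n * n ^ 6 * D ^ (12 * p) := Nat.mul_le_mul_right _ (Nat.mul_le_mul_right _ hn2)
      _ = n ^ 7 * D ^ (12 * p) := by ring
      _ < (2 * t) ^ p * D ^ (12 * p) := Nat.mul_lt_mul_of_pos_right h3 hDp
  -- products of space and number of contents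
  have hSW : S' * W ≤ U * n ^ (C + 2) := by
    calc S' * W ≤ n ^ 2 * (U * n ^ C) := Nat.mul_le_mul hS'n hW
      _ = U * n ^ (C + 2) := by ring
  have h6a : 6 * ((S' * W) ^ 2 * ((n ^ 2) ^ 3 * (n ^ 2) ^ 3)) ≤ U ^ 3 := by
    calc 6 * ((S' * W) ^ 2 * ((n ^ 2) ^ 3 * (n ^ 2) ^ 3))
        ≤ 6 * ((U * n ^ (C + 2)) ^ 2 * ((n ^ 2) ^ 3 * (n ^ 2) ^ 3)) :=
          Nat.mul_le_mul_left _ (Nat.mul_le_mul_right _ (Nat.pow_le_pow_left hSW 2))
      _ = U ^ 2 * (6 * n ^ (2 * C + 16)) := by ring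
      _ ≤ U ^ 2 * (n * n ^ (2 * C + 16)) :=
          Nat.mul_le_mul_left _ (Nat.mul_le_mul_right _ (by omega))
      _ = U ^ 2 * n ^ (2 * C + 17) := by ring
      _ ≤ U ^ 2 * U := Nat.mul_le_mul_left _ (hUn _ (by omega))
      _ = U ^ 3 := by ring
  have h6b : 6 * ((S' * W) * ((n ^ 2) ^ q * (4 * (S' * W)) ^ q)) ≤ U ^ q * (K + 1) ^ q := by
    have hKq : U ^ 2 ≤ (K + 1) ^ q := by
      calc U ^ 2 ≤ ((K + 1) ^ (24 * p)) ^ 2 := Nat.pow_le_pow_left hK2.le 2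
        _ = (K + 1) ^ q := by rw [← pow_mul, hq]; congr 1; omega
    calc 6 * ((S' * W) * ((n ^ 2) ^ q * (4 * (S' * W)) ^ q))
        ≤ 6 * ((U * n ^ (C + 2)) * ((n ^ 2) ^ q * (4 * (U * n ^ (C + 2))) ^ q)) := by
          refine Nat.mul_le_mul_left _ (Nat.mul_le_mul hSW (Nat.mul_le_mul_left _ ?_))
          exact Nat.pow_le_pow_left (Nat.mul_le_mul_left _ hSW) q
      _ = U ^ q * (U * ((6 * 4 ^ q) * (n ^ (C + 2) * (n ^ (2 * q) * n ^ ((C + 2) * q))))) := by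
          rw [mul_pow, mul_pow, ← pow_mul, ← pow_mul]; ring
      _ = U ^ q * (U * ((6 * 4 ^ q) * n ^ ((C + 2) * (q + 1) + 2 * q))) := by
          rw [← pow_add, ← pow_add]; congr 4; ring
      _ ≤ U ^ q * (U * (n * n ^ ((C + 2) * (q + 1) + 2 * q))) :=
          Nat.mul_le_mul_left _ (Nat.mul_le_mul_left _ (Nat.mul_le_mul_right _ hn3))
      _ = U ^ q * (U * n ^ ((C + 2) * (q + 1) + 2 * q + 1)) := by
          rw [pow_succ n ((C + 2) * (q + 1) + 2 * q)]; ring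
      _ ≤ U ^ q * (U * U) :=
          Nat.mul_le_mul_left _ (Nat.mul_le_mul_left _ (hUn _ (by omega)))
      _ = U ^ q * U ^ 2 := by rw [pow_two]
      _ ≤ U ^ q * (K + 1) ^ q := Nat.mul_le_mul_left _ hKq
  -- the virtual blocks
  set rv := 2 * U / S' + 1 with hrv
  have hrv1 : 2 * U ≤ rv * S' := by
    have := Nat.lt_div_mul_add (a := 2 * U) hS'pos
    rw [hrv, Nat.add_mul, Nat.one_mul]; exact this.le
  have hS'U : S' ≤ U := hS'n.trans (hUn 2 (by omega))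
  have hrv2 : rv * S' ≤ 3 * U := by
    have := Nat.div_mul_le_self (2 * U) S'
    rw [hrv, Nat.add_mul, Nat.one_mul]; omega
  have hS'sq : n ^ 3 ≤ 4 * S' ^ 2 := by
    have h1 : n ^ 4 ≤ n * (4 * S' ^ 2) := by
      calc n ^ 4 = (n ^ 2) ^ 2 := by ring
        _ ≤ ((2 * t) * S') ^ 2 := Nat.pow_le_pow_left hrS 2
        _ = t ^ 2 * (4 * S' ^ 2) := by ring
        _ ≤ n * (4 * S' ^ 2) := Nat.mul_le_mul_right _ ht2n
    have h2 : n * n ^ 3 ≤ n * (4 * S' ^ 2) := by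
      calc n * n ^ 3 = n ^ 4 := by ring
        _ ≤ _ := h1
    exact Nat.le_of_mul_le_mul_left h2 hnpos
  have hnS' : n ≤ S' := by
    have h1 : 4 * n ^ 2 ≤ 4 * S' ^ 2 := by
      calc 4 * n ^ 2 ≤ n * n ^ 2 := Nat.mul_le_mul_right _ (by omega)
        _ = n ^ 3 := by ring
        _ ≤ 4 * S' ^ 2 := hS'sq
    have h2 : n ^ 2 ≤ S' ^ 2 := Nat.le_of_mul_le_mul_left h1 (by omega)
    exact le_of_pow_le_pow_left₀ (by omega) (Nat.zero_le _) h2
  have h6d : 6 * ((2 * n * (2 * S')) * (n ^ 8 * rv ^ 8)) ≤ U ^ 8 := by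
    have h1 : (6 * ((2 * n * (2 * S')) * (n ^ 8 * rv ^ 8))) * S' ^ 8 ≤ U ^ 8 * S' ^ 8 := by
      calc (6 * ((2 * n * (2 * S')) * (n ^ 8 * rv ^ 8))) * S' ^ 8
          = 24 * n ^ 9 * S' * (rv * S') ^ 8 := by ring
        _ ≤ 24 * n ^ 9 * S' * (3 * U) ^ 8 :=
            Nat.mul_le_mul_left _ (Nat.pow_le_pow_left hrv2 8)
        _ = U ^ 8 * (157464 * (n ^ 3) ^ 3 * S') := by ring
        _ ≤ U ^ 8 * (157464 * (4 * S' ^ 2) ^ 3 * S') :=
            Nat.mul_le_mul_left _ (Nat.mul_le_mul_right _ (Nat.mul_le_mul_left _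
              (Nat.pow_le_pow_left hS'sq 3)))
        _ = U ^ 8 * (10077696 * S' ^ 7) := by ring
        _ ≤ U ^ 8 * (S' * S' ^ 7) :=
            Nat.mul_le_mul_left _ (Nat.mul_le_mul_right _ (hn4.trans hnS'))
        _ = U ^ 8 * S' ^ 8 := by ring
    exact Nat.le_of_mul_le_mul_right h1 (Nat.pow_pos hS'pos)
  -- the final count
  have hKn : n ^ (C + 12) ≤ K := by
    have h1 : (n ^ (C + 12)) ^ (24 * p) < (K + 1) ^ (24 * p) := by
      calc (n ^ (C + 12)) ^ (24 * p) = n ^ (24 * p * (C + 12)) := by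
            rw [← pow_mul]; congr 1; ring
        _ ≤ U := hUn _ (by omega)
        _ < (K + 1) ^ (24 * p) := hK2
    have := lt_of_pow_lt_pow_left₀ _ (Nat.zero_le _) h1
    omega
  have hKpos : 0 < K := lt_of_lt_of_le (Nat.pow_pos hnpos) hKn
  have h6F := final_num n U S' W K C p hppos (by omega) hSW hKn hK1
  exact core (pad P S' hSS') (fun A => pad_correct P S' hSS' A (hP A)) K q p 8 (2 * t) D rv
    hppos (by omega) hDpos hKpos hUpos (Nat.succ_pos _) hrv1 hqS hrS hDS hnum h6a h6b h6d h6F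

end Pool.H54.TSUM
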