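import Mathlib

/-!
Counting lemmas for arrays (3SUM-Indexing cell probe lower bound, MP_e016b3_lc):
one and two coordinate resampling, sequential lists of labels.
-/

namespace Pool.H54.TSUM

open Finset Function

/-- labels: pairs (index in the first array, index in the second array) -/
abbrev Label (n : ℕ) := Fin n × Fin n
/-- label vertices: positions of the two arrays -/
abbrev Vtx (n : ℕ) := Fin n ⊕ Fin n
/-- the two arrays as one function -/
abbrev Arr (n U : ℕ) := Vtx n → Fin U

/-- the sum belonging to a label -/
def zv {n U : ℕ} (A : Arr n U) (g : Label n) : ℕ :=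
  (A (Sum.inl g.1)).val + (A (Sum.inr g.2)).val

theorem zv_lt {n U : ℕ} (A : Arr n U) (g : Label n) : zv A g < 2 * U := by
  unfold zv
  have h1 := (A (Sum.inl g.1)).isLt
  have h2 := (A (Sum.inr g.2)).isLt
  omega

section coord

open Classical

theorem one_coord {V : Type*} [Fintype V] [DecidableEq V] {U : ℕ} (β : V)
    (X Y : Finset (V → Fin U)) (hXY : X ⊆ Y)
    (hinv : ∀ A ∈ Y, ∀ s, update A β s ∈ Y) (B : ℕ)
    (hB : ∀ A, (univ.filter (fun s => update A β s ∈ X)).card ≤ B) :
    X.card * U ≤ Y.card * B := by
  have h1 : ((Y ×ˢ (univ : Finset (Fin U))).filter (fun p => update p.1 β p.2 ∈ X)).card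
      ≤ Y.card * B := by
    rw [card_filter, sum_product]
    calc ∑ A ∈ Y, ∑ s : Fin U, (if update A β s ∈ X then 1 else 0)
        = ∑ A ∈ Y, (univ.filter (fun s => update A β s ∈ X)).card := by
          refine sum_congr rfl (fun A _ => ?_)
          rw [card_filter]
      _ ≤ ∑ A ∈ Y, B := sum_le_sum (fun A _ => hB A)
      _ = Y.card * B := by rw [sum_const, smul_eq_mul]
  have h2 : (X ×ˢ (univ : Finset (Fin U))).card ≤
      ((Y ×ˢ (univ : Finset (Fin U))).filter (fun p => update p.1 β p.2 ∈ X)).card := by
    refine card_le_card_of_injOn (fun p => (update p.1 β p.2, p.1 β)) ?_ ?_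
    · intro p hp
      have hp' := mem_product.1 (mem_coe.1 hp)
      refine mem_coe.2 (mem_filter.2 ⟨mem_product.2 ⟨hinv _ (hXY hp'.1) _, mem_univ _⟩, ?_⟩)
      simpa using hp'.1
    · intro p _ p' _ h
      have h1 : update p.1 β p.2 = update p'.1 β p'.2 := congrArg Prod.fst h
      have h2 : p.1 β = p'.1 β := congrArg Prod.snd h
      have h3 : p.2 = p'.2 := by
        have := congrFun h1 β
        simpa using this
      have h4 : p.1 = p'.1 := by
        funext v
        by_cases hv : v = β
        · rw [hv]; exact h2
        · have := congrFun h1 v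
          simpa [update_of_ne hv] using this
      exact Prod.ext h4 h3
  rw [card_product, card_univ, Fintype.card_fin] at h2
  exact h2.trans h1

theorem two_coord {V : Type*} [Fintype V] [DecidableEq V] {U : ℕ} (α β : V) (hne : α ≠ β)
    (X : Finset (V → Fin U)) (B : ℕ)
    (hB : ∀ A, (univ.filter (fun p : Fin U × Fin U =>
      update (update A α p.1) β p.2 ∈ X)).card ≤ B) :
    X.card * U ^ 2 ≤ U ^ (Fintype.card V) * B := by
  have h1 : ((univ : Finset ((V → Fin U) × (Fin U × Fin U))).filter
      (fun p => update (update p.1 α p.2.1) β p.2.2 ∈ X)).card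
      ≤ U ^ (Fintype.card V) * B := by
    rw [card_filter, ← univ_product_univ, sum_product]
    calc ∑ A : V → Fin U, ∑ p : Fin U × Fin U,
          (if update (update A α p.1) β p.2 ∈ X then 1 else 0)
        = ∑ A : V → Fin U, (univ.filter (fun p : Fin U × Fin U =>
            update (update A α p.1) β p.2 ∈ X)).card := by
          refine sum_congr rfl (fun A _ => ?_)
          rw [card_filter]
      _ ≤ ∑ A : V → Fin U, B := sum_le_sum (fun A _ => hB A)
      _ = U ^ (Fintype.card V) * B := by
          rw [sum_const, smul_eq_mul, card_univ, Fintype.card_fun, Fintype.card_fin]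
  have h2 : (X ×ˢ (univ : Finset (Fin U × Fin U))).card ≤
      ((univ : Finset ((V → Fin U) × (Fin U × Fin U))).filter
      (fun p => update (update p.1 α p.2.1) β p.2.2 ∈ X)).card := by
    refine card_le_card_of_injOn
      (fun p => (update (update p.1 α p.2.1) β p.2.2, (p.1 α, p.1 β))) ?_ ?_
    · intro p hp
      have hp' := mem_product.1 (mem_coe.1 hp)
      refine mem_coe.2 (mem_filter.2 ⟨mem_univ _, ?_⟩)
      have : update (update (update (update p.1 α p.2.1) β p.2.2) α (p.1 α)) β (p.1 β) = p.1 := by
        funext v
        by_cases hv : v = β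
        · rw [hv]; simp
        · by_cases hv' : v = α
          · rw [hv']; simp [hne]
          · simp [update_of_ne hv, update_of_ne hv']
      show update (update (update (update p.1 α p.2.1) β p.2.2) α (p.1 α)) β (p.1 β) ∈ X
      rw [this]; exact hp'.1
    · intro p _ p' _ h
      have h1 : update (update p.1 α p.2.1) β p.2.2 = update (update p'.1 α p'.2.1) β p'.2.2 :=
        congrArg Prod.fst h
      have h2 : p.1 α = p'.1 α := congrArg (fun q => q.2.1) h
      have h3 : p.1 β = p'.1 β := congrArg (fun q => q.2.2) h
      have h4 : p.2.2 = p'.2.2 := by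
        have := congrFun h1 β
        simpa using this
      have h5 : p.2.1 = p'.2.1 := by
        have := congrFun h1 α
        simpa [hne] using this
      have h6 : p.1 = p'.1 := by
        funext v
        by_cases hv : v = β
        · rw [hv]; exact h3
        · by_cases hv' : v = α
          · rw [hv']; exact h2
          · have := congrFun h1 v
            simpa [update_of_ne hv, update_of_ne hv'] using this
      exact Prod.ext h6 (Prod.ext h5 h4)
  rw [card_product, card_univ, Fintype.card_prod, Fintype.card_fin, ← pow_two] at h2
  exact h2.trans h1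

end coord

/-- both end points of `g` are end points of labels in `l` -/
def Blocked {n : ℕ} (l : List (Label n)) (g : Label n) : Prop :=
  g.1 ∈ l.map Prod.fst ∧ g.2 ∈ l.map Prod.snd

/-- sequential lists: every label has an end point which was not touched before -/
def SeqL {n : ℕ} : List (Label n) → Prop
  | [] => True
  | g :: l => ¬ Blocked l g ∧ SeqL l

section seq

open Classical

theorem card_val_add {U : ℕ} (c : ℕ) (T : Finset ℕ) :
    (univ.filter (fun s : Fin U => s.val + c ∈ T)).card ≤ T.card := by
  refine card_le_card_of_injOn (fun s => s.val + c) ?_ ?_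
  · intro s hs
    exact mem_coe.2 (mem_filter.1 (mem_coe.1 hs)).2
  · intro s _ s' _ h
    have : s.val + c = s'.val + c := h
    exact Fin.ext (by omega)

theorem seq_count {n U : ℕ} (T : Finset ℕ) (l : List (Label n)) (hl : SeqL l) :
    ((univ : Finset (Arr n U)).filter (fun A => ∀ g ∈ l, zv A g ∈ T)).card * U ^ l.length
      ≤ U ^ (2 * n) * T.card ^ l.length := by
  induction l with
  | nil =>
    simp only [List.length_nil, pow_zero, mul_one]
    refine (card_filter_le _ _).trans ?_
    rw [card_univ, Fintype.card_fun, Fintype.card_fin, Fintype.card_sum, Fintype.card_fin, two_mul]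
  | cons g l ih =>
    obtain ⟨hg, hl'⟩ := hl
    have ih' := ih hl'
    set X := ((univ : Finset (Arr n U)).filter (fun A => ∀ g' ∈ g :: l, zv A g' ∈ T)) with hX
    set Y := ((univ : Finset (Arr n U)).filter (fun A => ∀ g' ∈ l, zv A g' ∈ T)) with hY
    have hXY : X ⊆ Y := by
      intro A hA
      rw [hX, mem_filter] at hA
      rw [hY, mem_filter]
      exact ⟨mem_univ _, fun g' hg' => hA.2 g' (List.mem_cons_of_mem _ hg')⟩
    have key : X.card * U ≤ Y.card * T.card := by
      by_cases h1 : g.1 ∈ l.map Prod.fst
      · have h2 : g.2 ∉ l.map Prod.snd := fun h2 => hg ⟨h1, h2⟩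
        refine one_coord (Sum.inr g.2) X Y hXY ?_ T.card ?_
        · intro A hA s
          rw [hY, mem_filter] at hA ⊢
          refine ⟨mem_univ _, fun g' hg' => ?_⟩
          have : g'.2 ≠ g.2 := fun h => h2 (h ▸ List.mem_map_of_mem hg')
          have h3 : zv (update A (Sum.inr g.2) s) g' = zv A g' := by
            unfold zv
            rw [update_of_ne (by simp), update_of_ne (by simpa using this)]
          rw [h3]; exact hA.2 g' hg'
        · intro A
          refine le_trans (card_le_card ?_) (card_val_add (A (Sum.inl g.1)).val T)
          intro s hs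
          rw [mem_filter, hX, mem_filter] at hs
          rw [mem_filter]
          refine ⟨mem_univ _, ?_⟩
          have h4 := hs.2.2 g List.mem_cons_self
          unfold zv at h4
          rw [update_of_ne (by simp), update_self] at h4
          rw [add_comm]; exact h4
      · refine one_coord (Sum.inl g.1) X Y hXY ?_ T.card ?_
        · intro A hA s
          rw [hY, mem_filter] at hA ⊢
          refine ⟨mem_univ _, fun g' hg' => ?_⟩
          have : g'.1 ≠ g.1 := fun h => h1 (h ▸ List.mem_map_of_mem hg')
          have h3 : zv (update A (Sum.inl g.1) s) g' = zv A g' := by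
            unfold zv
            rw [update_of_ne (by simpa using this), update_of_ne (by simp)]
          rw [h3]; exact hA.2 g' hg'
        · intro A
          refine le_trans (card_le_card ?_) (card_val_add (A (Sum.inr g.2)).val T)
          intro s hs
          rw [mem_filter, hX, mem_filter] at hs
          rw [mem_filter]
          refine ⟨mem_univ _, ?_⟩
          have h4 := hs.2.2 g List.mem_cons_self
          unfold zv at h4
          rw [update_self, update_of_ne (by simp)] at h4
          exact h4
    calc X.card * U ^ (g :: l).length = (X.card * U) * U ^ l.length := by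
          rw [List.length_cons, pow_succ]; ring
      _ ≤ (Y.card * T.card) * U ^ l.length := Nat.mul_le_mul_right _ key
      _ = (Y.card * U ^ l.length) * T.card := by ring
      _ ≤ (U ^ (2 * n) * T.card ^ l.length) * T.card := Nat.mul_le_mul_right _ ih'
      _ = U ^ (2 * n) * T.card ^ (g :: l).length := by
          rw [List.length_cons, pow_succ]; ring

end seq

end Pool.H54.TSUM
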