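import Mathlib

/-!
Definitions: 3SUM-Indexing data structures with two adaptive cell probes (MP_e016b3_lc).
-/

namespace Pool.H54.TSUM

/-- A query algorithm with two adaptive cell probes. The memory has `S` cells, each of which
holds one of `W` possible contents. On query `z` the algorithm reads cell `p1 z`, whose content
is `x`, then cell `p2 z x`, whose content is `y`, and then it answers `ans z x y`. -/
structure TwoProbe (S W : ℕ) where
  /-- address of the first probe -/
  p1 : ℕ → Fin S
  /-- address of the second probe; it may depend on the content found by the first probe -/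
  p2 : ℕ → Fin W → Fin S
  /-- the answer -/
  ans : ℕ → Fin W → Fin W → Bool

/-- the answer of the query algorithm on query `z` when the memory is `M` -/
def TwoProbe.run {S W : ℕ} (P : TwoProbe S W) (M : Fin S → Fin W) (z : ℕ) : Bool :=
  P.ans z (M (P.p1 z)) (M (P.p2 z (M (P.p1 z))))

/-- `P` solves 3SUM-Indexing for arrays with `n` entries in `{0, …, U - 1}`: for all pairs of
arrays `A₁`, `A₂` there is a memory `M` for which every query `z` is answered correctly. -/
def TwoProbe.Solves {S W : ℕ} (P : TwoProbe S W) (n U : ℕ) : Prop :=
  ∀ A₁ A₂ : Fin n → Fin U, ∃ M : Fin S → Fin W, ∀ z : ℕ,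
    P.run M z = true ↔ ∃ a b : Fin n, (A₁ a : ℕ) + (A₂ b : ℕ) = z

end Pool.H54.TSUM
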