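import Pool.Agent.H54.TSUM.Lists

/-!
Chunking of fibres, pruning to large minimum degree, and walks in the bipartite graph
of memory cells (3SUM-Indexing cell probe lower bound, MP_e016b3_lc).
-/

namespace Pool.H54.TSUM

open Finset Function Classical

section chunk

variable {α V : Type*} [DecidableEq V]

/-- rank of `g` in its fibre -/
noncomputable def rk (E : Finset α) (p : α → V) (g : α) : ℕ :=
  (E.filter (fun g' => p g' = p g ∧ E.toList.idxOf g' < E.toList.idxOf g)).card

theorem rk_lt (E : Finset α) (p : α → V) (g : α) (hg : g ∈ E) :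
    rk E p g < (E.filter (fun g' => p g' = p g)).card := by
  refine card_lt_card ?_
  rw [ssubset_iff_of_subset]
  · refine ⟨g, mem_filter.2 ⟨hg, rfl⟩, fun h => ?_⟩
    exact lt_irrefl _ (mem_filter.1 h).2.2
  · intro g' h
    rw [mem_filter] at h ⊢
    exact ⟨h.1, h.2.1⟩

theorem rk_inj (E : Finset α) (p : α → V) (g g' : α) (hg : g ∈ E) (hg' : g' ∈ E)
    (hp : p g = p g') (h : rk E p g = rk E p g') : g = g' := by
  have aux : ∀ x ∈ E, ∀ y ∈ E, p x = p y → E.toList.idxOf x < E.toList.idxOf y →
      rk E p x < rk E p y := by
    intro x hx y hy hxy hlt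
    refine card_lt_card ?_
    rw [ssubset_iff_of_subset]
    · refine ⟨x, mem_filter.2 ⟨hx, hxy, hlt⟩, fun h => ?_⟩
      exact lt_irrefl _ (mem_filter.1 h).2.2
    · intro z h
      rw [mem_filter] at h ⊢
      exact ⟨h.1, h.2.1.trans hxy, h.2.2.trans hlt⟩
  rcases lt_trichotomy (E.toList.idxOf g) (E.toList.idxOf g') with h1 | h1 | h1
  · exact absurd h (aux g hg g' hg' hp h1).ne
  · exact (List.idxOf_inj (mem_toList.2 hg)).1 h1
  · exact absurd h (aux g' hg' g hg hp.symm h1).ne'

theorem chunk (E : Finset α) (p : α → V) (r : ℕ) (hr : 0 < r) :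
    ∃ γ : α → V × ℕ, (∀ g, (γ g).1 = p g) ∧
      (∀ v, (E.filter (fun g => γ g = v)).card ≤ r) ∧
      r * (E.image γ).card ≤ E.card + r * (E.image p).card := by
  refine ⟨fun g => (p g, rk E p g / r), fun g => rfl, fun v => ?_, ?_⟩
  · have : (Finset.Ico (v.2 * r) (v.2 * r + r)).card = r := by simp
    refine le_of_le_of_eq (card_le_card_of_injOn (fun g => rk E p g) ?_ ?_) this
    · intro g hg
      have h := (mem_filter.1 (mem_coe.1 hg)).2
      have h2 : rk E p g / r = v.2 := congrArg Prod.snd h
      refine mem_coe.2 (Finset.mem_Ico.2 ⟨?_, ?_⟩)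
      · show v.2 * r ≤ rk E p g
        rw [← h2]; exact Nat.div_mul_le_self _ _
      · show rk E p g < v.2 * r + r
        rw [← h2]; exact Nat.lt_div_mul_add hr
    · intro g hg g' hg' h
      have h1 := (mem_filter.1 (mem_coe.1 hg))
      have h1' := (mem_filter.1 (mem_coe.1 hg'))
      have h3 : p g = v.1 := congrArg Prod.fst h1.2
      have h3' : p g' = v.1 := congrArg Prod.fst h1'.2
      exact rk_inj E p g g' h1.1 h1'.1 (h3.trans h3'.symm) h
  · have h1 : E.image (fun g => (p g, rk E p g / r)) ⊆
        (E.image p).biUnion (fun v => (range ((E.filter (fun g' => p g' = v)).card / r + 1)).image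
          (fun k => (v, k))) := by
      intro q hq
      rw [mem_image] at hq
      obtain ⟨g, hg, rfl⟩ := hq
      rw [mem_biUnion]
      refine ⟨p g, mem_image_of_mem _ hg, ?_⟩
      rw [mem_image]
      refine ⟨rk E p g / r, ?_, rfl⟩
      rw [mem_range, Nat.lt_succ_iff]
      exact Nat.div_le_div_right (rk_lt E p g hg).le
    have h2 : (E.image (fun g => (p g, rk E p g / r))).card ≤
        ∑ v ∈ E.image p, ((E.filter (fun g' => p g' = v)).card / r + 1) := by
      refine (card_le_card h1).trans (card_biUnion_le.trans ?_)
      refine sum_le_sum (fun v _ => ?_)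
      refine card_image_le.trans ?_
      rw [card_range]
    calc r * (E.image (fun g => (p g, rk E p g / r))).card
        ≤ r * ∑ v ∈ E.image p, ((E.filter (fun g' => p g' = v)).card / r + 1) :=
          Nat.mul_le_mul_left _ h2
      _ = ∑ v ∈ E.image p, (r * ((E.filter (fun g' => p g' = v)).card / r) + r) := by
          rw [mul_sum]
          refine sum_congr rfl (fun v _ => by ring)
      _ ≤ ∑ v ∈ E.image p, ((E.filter (fun g' => p g' = v)).card + r) :=
          sum_le_sum (fun v _ => Nat.add_le_add_right (Nat.mul_div_le _ _) _)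
      _ = E.card + r * (E.image p).card := by
          rw [sum_add_distrib, sum_const, smul_eq_mul, mul_comm,
            ← card_eq_sum_card_fiberwise (f := p) (fun x hx => mem_image_of_mem p hx)]

end chunk

section prune

variable {α V V' : Type*} [DecidableEq V] [DecidableEq V']

theorem prune (L : α → V) (R : α → V') (D : ℕ) (hD : 0 < D) (E₀ : Finset α)
    (h : (D - 1) * ((E₀.image L).card + (E₀.image R).card) < E₀.card) :
    ∃ E ⊆ E₀, E.Nonempty ∧ ∀ g ∈ E, D ≤ (E.filter (fun g' => L g' = L g)).card ∧
      D ≤ (E.filter (fun g' => R g' = R g)).card := by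
  induction hN : E₀.card using Nat.strong_induction_on generalizing E₀ with
  | _ N ih =>
    by_cases hall : ∀ g ∈ E₀, D ≤ (E₀.filter (fun g' => L g' = L g)).card ∧
      D ≤ (E₀.filter (fun g' => R g' = R g)).card
    · refine ⟨E₀, subset_rfl, ?_, hall⟩
      rw [← card_pos]; exact lt_of_le_of_lt (Nat.zero_le _) h
    · push Not at hall
      obtain ⟨g, hg, hlt⟩ := hall
      by_cases h1 : D ≤ (E₀.filter (fun g' => L g' = L g)).card
      · have h2 := hlt h1
        set E₁ := E₀.filter (fun g' => R g' ≠ R g) with hE₁
        have hsub : E₁ ⊆ E₀ := filter_subset _ _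
        have hcard : (E₀.filter (fun g' => R g' = R g)).card + E₁.card = E₀.card :=
          card_filter_add_card_filter_not _
        have hpos : 0 < (E₀.filter (fun g' => R g' = R g)).card :=
          card_pos.2 ⟨g, mem_filter.2 ⟨hg, rfl⟩⟩
        have hR : (E₁.image R).card + 1 ≤ (E₀.image R).card := by
          have : (E₁.image R) ⊂ (E₀.image R) := by
            rw [ssubset_iff_of_subset (image_subset_image hsub)]
            refine ⟨R g, mem_image_of_mem _ hg, fun hc => ?_⟩
            obtain ⟨g', hg', h3⟩ := mem_image.1 hc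
            exact (mem_filter.1 hg').2 h3
          exact card_lt_card this
        have hL : (E₁.image L).card ≤ (E₀.image L).card :=
          card_le_card (image_subset_image hsub)
        obtain ⟨E, hE, hE2⟩ := ih E₁.card (by omega) E₁ (by
          have h4 : (D - 1) * ((E₁.image L).card + (E₁.image R).card) + (D - 1) ≤
              (D - 1) * ((E₀.image L).card + (E₀.image R).card) := by
            rw [← Nat.mul_succ]
            exact Nat.mul_le_mul_left _ (by omega)
          omega) rfl
        exact ⟨E, hE.trans hsub, hE2⟩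
      · set E₁ := E₀.filter (fun g' => L g' ≠ L g) with hE₁
        have hsub : E₁ ⊆ E₀ := filter_subset _ _
        have hcard : (E₀.filter (fun g' => L g' = L g)).card + E₁.card = E₀.card :=
          card_filter_add_card_filter_not _
        have hpos : 0 < (E₀.filter (fun g' => L g' = L g)).card :=
          card_pos.2 ⟨g, mem_filter.2 ⟨hg, rfl⟩⟩
        have hL : (E₁.image L).card + 1 ≤ (E₀.image L).card := by
          have : (E₁.image L) ⊂ (E₀.image L) := by
            rw [ssubset_iff_of_subset (image_subset_image hsub)]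
            refine ⟨L g, mem_image_of_mem _ hg, fun hc => ?_⟩
            obtain ⟨g', hg', h3⟩ := mem_image.1 hc
            exact (mem_filter.1 hg').2 h3
          exact card_lt_card this
        have hR : (E₁.image R).card ≤ (E₀.image R).card :=
          card_le_card (image_subset_image hsub)
        obtain ⟨E, hE, hE2⟩ := ih E₁.card (by omega) E₁ (by
          have h4 : (D - 1) * ((E₁.image L).card + (E₁.image R).card) + (D - 1) ≤
              (D - 1) * ((E₀.image L).card + (E₀.image R).card) := by
            rw [← Nat.mul_succ]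
            exact Nat.mul_le_mul_left _ (by omega)
          omega) rfl
        exact ⟨E, hE.trans hsub, hE2⟩

end prune

end Pool.H54.TSUM
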