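import Pool.Agent.H54.TSUM.Counting

/-!
Growing lists step by step, greedy choice of sequential lists of labels, and the
union bounds over sequential lists (3SUM-Indexing cell probe lower bound, MP_e016b3_lc).
-/

namespace Pool.H54.TSUM

open Finset Function Classical

/-- lists of length `k` (newest element first) where the next element is taken from `ext l` -/
noncomputable def grow {α : Type*} (ext : List α → Finset α) : ℕ → Finset (List α)
  | 0 => {[]}
  | k + 1 => ((grow ext k).sigma (fun l => ext l)).image (fun p => p.2 :: p.1)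

theorem sum_grow_succ {α : Type*} (ext : List α → Finset α) (k : ℕ) (F : List α → ℕ) :
    ∑ l ∈ grow ext (k + 1), F l = ∑ l ∈ grow ext k, ∑ g ∈ ext l, F (g :: l) := by
  have h0 : grow ext (k + 1) =
    ((grow ext k).sigma (fun l => ext l)).image (fun p => p.2 :: p.1) := rfl
  rw [h0, sum_image, sum_sigma]
  intro p _ p' _ h
  have h' : p.2 :: p.1 = p'.2 :: p'.1 := h
  rw [List.cons.injEq] at h'
  obtain ⟨a, b⟩ := p
  obtain ⟨a', b'⟩ := p'
  obtain ⟨h1, h2⟩ := h'
  dsimp at h1 h2
  subst h1; subst h2; rfl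

theorem mem_grow_succ {α : Type*} (ext : List α → Finset α) (k : ℕ) (g : α) (l : List α) :
    g :: l ∈ grow ext (k + 1) ↔ l ∈ grow ext k ∧ g ∈ ext l := by
  show g :: l ∈ ((grow ext k).sigma (fun l => ext l)).image (fun p => p.2 :: p.1) ↔ _
  rw [mem_image]
  constructor
  · rintro ⟨p, hp, h⟩
    rw [List.cons.injEq] at h
    rw [mem_sigma] at hp
    rw [← h.1, ← h.2]
    exact hp
  · intro h
    exact ⟨⟨l, g⟩, mem_sigma.2 h, rfl⟩

theorem exists_of_mem_grow_succ {α : Type*} (ext : List α → Finset α) (k : ℕ) (l : List α)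
    (h : l ∈ grow ext (k + 1)) : ∃ g l', l = g :: l' ∧ l' ∈ grow ext k ∧ g ∈ ext l' := by
  have h' : l ∈ ((grow ext k).sigma (fun l => ext l)).image (fun p => p.2 :: p.1) := h
  rw [mem_image] at h'
  obtain ⟨p, hp, h⟩ := h'
  rw [mem_sigma] at hp
  exact ⟨p.2, p.1, h.symm, hp.1, hp.2⟩

theorem length_of_mem_grow {α : Type*} (ext : List α → Finset α) (k : ℕ) (l : List α)
    (h : l ∈ grow ext k) : l.length = k := by
  induction k generalizing l with
  | zero => 
    have : l ∈ ({[]} : Finset (List α)) := h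
    rw [mem_singleton] at this
    rw [this]; rfl
  | succ k ih =>
    obtain ⟨g, l', rfl, h1, _⟩ := exists_of_mem_grow_succ ext k l h
    rw [List.length_cons, ih l' h1]

theorem card_grow_const {α : Type*} (G : Finset α) (k : ℕ) :
    (grow (fun _ => G) k).card = G.card ^ k := by
  induction k with
  | zero => rfl
  | succ k ih =>
    rw [card_eq_sum_ones, sum_grow_succ]
    simp only [sum_const, smul_eq_mul, mul_one]
    rw [ih, pow_succ]

theorem mem_grow_const {α : Type*} (G : Finset α) (k : ℕ) (l : List α) :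
    l ∈ grow (fun _ => G) k ↔ l.length = k ∧ ∀ g ∈ l, g ∈ G := by
  induction k generalizing l with
  | zero =>
    show l ∈ ({[]} : Finset (List α)) ↔ _
    rw [mem_singleton]
    constructor
    · rintro rfl
      exact ⟨rfl, fun g hg => absurd hg List.not_mem_nil⟩
    · rintro ⟨h, _⟩
      exact List.length_eq_zero_iff.1 h
  | succ k ih =>
    constructor
    · intro h
      obtain ⟨g, l', rfl, h1, h2⟩ := exists_of_mem_grow_succ _ k l h
      obtain ⟨h3, h4⟩ := (ih l').1 h1
      refine ⟨by rw [List.length_cons, h3], fun g' hg' => ?_⟩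
      rcases List.mem_cons.1 hg' with rfl | h5
      · exact h2
      · exact h4 g' h5
    · rintro ⟨h1, h2⟩
      cases l with
      | nil => simp at h1
      | cons g l =>
        rw [mem_grow_succ]
        refine ⟨(ih l).2 ⟨by simpa using h1, fun g' hg' => h2 g' (List.mem_cons_of_mem _ hg')⟩,
          h2 g List.mem_cons_self⟩

/-- `α` is an end point of the label `g` -/
def Touches {n : ℕ} (α : Vtx n) (g : Label n) : Prop := α = Sum.inl g.1 ∨ α = Sum.inr g.2

theorem blocked_card {n : ℕ} (l : List (Label n)) :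
    ((univ : Finset (Label n)).filter (fun g => Blocked l g)).card ≤ l.length ^ 2 := by
  have : (univ : Finset (Label n)).filter (fun g => Blocked l g) ⊆
      (l.map Prod.fst).toFinset ×ˢ (l.map Prod.snd).toFinset := by
    intro g hg
    rw [mem_filter] at hg
    rw [mem_product, List.mem_toFinset, List.mem_toFinset]
    exact hg.2
  refine (card_le_card this).trans ?_
  rw [card_product, pow_two]
  refine Nat.mul_le_mul ?_ ?_
  · refine (List.toFinset_card_le _).trans ?_
    rw [List.length_map]
  · refine (List.toFinset_card_le _).trans ?_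
    rw [List.length_map]

theorem greedy {n : ℕ} (F : Finset (Label n)) (q : ℕ)
    (h : ∀ l : List (Label n), l.length < q → (∀ g ∈ l, g ∈ F) →
      (F.filter (fun g => Blocked l g)).card < F.card) :
    ∃ l : List (Label n), SeqL l ∧ l.length = q ∧ ∀ g ∈ l, g ∈ F := by
  induction q with
  | zero => exact ⟨[], trivial, rfl, fun g hg => absurd hg List.not_mem_nil⟩
  | succ q ih =>
    obtain ⟨l, h1, h2, h3⟩ := ih (fun l hl => h l (hl.trans (Nat.lt_succ_self q)))
    have h4 := h l (by omega) h3
    have h5 : ∃ g ∈ F, ¬ Blocked l g := by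
      by_contra hcon
      push Not at hcon
      rw [filter_true_of_mem hcon] at h4
      exact lt_irrefl _ h4
    obtain ⟨g, hg, hb⟩ := h5
    refine ⟨g :: l, ⟨hb, h1⟩, by rw [List.length_cons, h2], fun g' hg' => ?_⟩
    rcases List.mem_cons.1 hg' with rfl | h5
    · exact hg
    · exact h3 g' h5

theorem greedy_sq {n : ℕ} (F : Finset (Label n)) (q : ℕ) (hF : (q - 1) ^ 2 < F.card) :
    ∃ l : List (Label n), SeqL l ∧ l.length = q ∧ ∀ g ∈ l, g ∈ F := by
  refine greedy F q (fun l hl _ => lt_of_le_of_lt ?_ hF)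
  calc (F.filter (fun g => Blocked l g)).card
      ≤ ((univ : Finset (Label n)).filter (fun g => Blocked l g)).card :=
        card_le_card (filter_subset_filter _ (subset_univ _))
    _ ≤ l.length ^ 2 := blocked_card l
    _ ≤ (q - 1) ^ 2 := Nat.pow_le_pow_left (by omega) 2

theorem greedy_touch {n : ℕ} (α : Vtx n) (F : Finset (Label n)) (hα : ∀ g ∈ F, Touches α g)
    (q : ℕ) (hF : q ≤ F.card) :
    ∃ l : List (Label n), SeqL l ∧ l.length = q ∧ ∀ g ∈ l, g ∈ F := by
  refine greedy F q (fun l hl hlF => lt_of_le_of_lt ?_ (lt_of_lt_of_le hl hF))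
  have : F.filter (fun g => Blocked l g) ⊆ l.toFinset := by
    intro g hg
    rw [mem_filter] at hg
    obtain ⟨hgF, hb1, hb2⟩ := hg
    rw [List.mem_toFinset]
    rcases hα g hgF with h | h
    · obtain ⟨g', hg', hg2⟩ := List.mem_map.1 hb2
      have h2 := hα g' (hlF g' hg')
      rw [h] at h2
      rcases h2 with h2 | h2
      · have : g = g' := Prod.ext (Sum.inl.inj h2) hg2.symm
        rw [this]; exact hg'
      · exact absurd h2 (by simp)
    · obtain ⟨g', hg', hg2⟩ := List.mem_map.1 hb1
      have h2 := hα g' (hlF g' hg')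
      rw [h] at h2
      rcases h2 with h2 | h2
      · exact absurd h2 (by simp)
      · have : g = g' := Prod.ext hg2.symm (Sum.inr.inj h2)
        rw [this]; exact hg'
  exact (card_le_card this).trans (List.toFinset_card_le _)

theorem union_seq {n U : ℕ} (T : Finset ℕ) (G : Finset (Label n)) (q : ℕ) :
    ((univ : Finset (Arr n U)).filter (fun A => ∃ l : List (Label n), SeqL l ∧ l.length = q ∧
      (∀ g ∈ l, g ∈ G) ∧ ∀ g ∈ l, zv A g ∈ T)).card * U ^ q
      ≤ G.card ^ q * (U ^ (2 * n) * T.card ^ q) := by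
  have h1 : ((univ : Finset (Arr n U)).filter (fun A => ∃ l : List (Label n), SeqL l ∧
      l.length = q ∧ (∀ g ∈ l, g ∈ G) ∧ ∀ g ∈ l, zv A g ∈ T)) ⊆
      ((grow (fun _ => G) q).filter (fun l => SeqL l)).biUnion
        (fun l => (univ : Finset (Arr n U)).filter (fun A => ∀ g ∈ l, zv A g ∈ T)) := by
    intro A hA
    rw [mem_filter] at hA
    obtain ⟨_, l, h1, h2, h3, h4⟩ := hA
    rw [mem_biUnion]
    refine ⟨l, ?_, ?_⟩
    · rw [mem_filter, mem_grow_const]
      exact ⟨⟨h2, h3⟩, h1⟩
    · rw [mem_filter]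
      exact ⟨mem_univ _, h4⟩
  have h2 := (card_le_card h1).trans card_biUnion_le
  calc _ ≤ (∑ l ∈ (grow (fun _ => G) q).filter (fun l => SeqL l),
        ((univ : Finset (Arr n U)).filter (fun A => ∀ g ∈ l, zv A g ∈ T)).card) * U ^ q :=
        Nat.mul_le_mul_right _ h2
    _ = ∑ l ∈ (grow (fun _ => G) q).filter (fun l => SeqL l),
        ((univ : Finset (Arr n U)).filter (fun A => ∀ g ∈ l, zv A g ∈ T)).card * U ^ q := by
        rw [sum_mul]
    _ ≤ ∑ l ∈ (grow (fun _ => G) q).filter (fun l => SeqL l), U ^ (2 * n) * T.card ^ q := by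
        refine sum_le_sum (fun l hl => ?_)
        rw [mem_filter] at hl
        have h3 := seq_count (U := U) T l hl.2
        rw [length_of_mem_grow _ _ _ hl.1] at h3
        exact h3
    _ ≤ ∑ l ∈ grow (fun _ => G) q, U ^ (2 * n) * T.card ^ q :=
        sum_le_sum_of_subset (filter_subset _ _)
    _ = G.card ^ q * (U ^ (2 * n) * T.card ^ q) := by
        rw [sum_const, smul_eq_mul, card_grow_const]

theorem count_sq {n U : ℕ} (T : Finset ℕ) (q : ℕ) :
    ((univ : Finset (Arr n U)).filter (fun A =>
      (q - 1) ^ 2 < ((univ : Finset (Label n)).filter (fun g => zv A g ∈ T)).card)).card * U ^ q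
      ≤ (n ^ 2) ^ q * (U ^ (2 * n) * T.card ^ q) := by
  have h := union_seq (U := U) T (univ : Finset (Label n)) q
  rw [card_univ, Fintype.card_prod, Fintype.card_fin, ← pow_two] at h
  refine le_trans (Nat.mul_le_mul_right _ (card_le_card ?_)) h
  intro A hA
  rw [mem_filter] at hA ⊢
  obtain ⟨l, h1, h2, h3⟩ := greedy_sq _ q hA.2
  exact ⟨mem_univ _, l, h1, h2, fun g _ => mem_univ _, fun g hg => (mem_filter.1 (h3 g hg)).2⟩

theorem card_touches {n : ℕ} (α : Vtx n) :
    ((univ : Finset (Label n)).filter (fun g => Touches α g)).card = n := by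
  cases α with
  | inl a =>
    have : (univ : Finset (Label n)).filter (fun g => Touches (Sum.inl a) g) =
        (univ : Finset (Fin n)).image (fun b => (a, b)) := by
      ext g
      rw [mem_filter, mem_image]
      constructor
      · rintro ⟨_, h | h⟩
        · exact ⟨g.2, mem_univ _, Prod.ext (Sum.inl.inj h) rfl⟩
        · exact absurd h (by simp)
      · rintro ⟨b, _, rfl⟩
        exact ⟨mem_univ _, Or.inl rfl⟩
    rw [this, card_image_of_injective, card_univ, Fintype.card_fin]
    intro b b' h
    exact congrArg Prod.snd h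
  | inr a =>
    have : (univ : Finset (Label n)).filter (fun g => Touches (Sum.inr a) g) =
        (univ : Finset (Fin n)).image (fun b => (b, a)) := by
      ext g
      rw [mem_filter, mem_image]
      constructor
      · rintro ⟨_, h | h⟩
        · exact absurd h (by simp)
        · exact ⟨g.1, mem_univ _, Prod.ext rfl (Sum.inr.inj h)⟩
      · rintro ⟨b, _, rfl⟩
        exact ⟨mem_univ _, Or.inr rfl⟩
    rw [this, card_image_of_injective, card_univ, Fintype.card_fin]
    intro b b' h
    exact congrArg Prod.fst h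

theorem count_touch {n U : ℕ} (α : Vtx n) (T : Finset ℕ) (q : ℕ) :
    ((univ : Finset (Arr n U)).filter (fun A =>
      q ≤ ((univ : Finset (Label n)).filter (fun g => Touches α g ∧ zv A g ∈ T)).card)).card * U ^ q
      ≤ n ^ q * (U ^ (2 * n) * T.card ^ q) := by
  have h := union_seq (U := U) T ((univ : Finset (Label n)).filter (fun g => Touches α g)) q
  rw [card_touches] at h
  refine le_trans (Nat.mul_le_mul_right _ (card_le_card ?_)) h
  intro A hA
  rw [mem_filter] at hA ⊢
  obtain ⟨l, h1, h2, h3⟩ := greedy_touch α _ (fun g hg => (mem_filter.1 hg).2.1) q hA.2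
  exact ⟨mem_univ _, l, h1, h2,
    fun g hg => mem_filter.2 ⟨mem_univ _, (mem_filter.1 (h3 g hg)).2.1⟩,
    fun g hg => (mem_filter.1 (h3 g hg)).2.2⟩

end Pool.H54.TSUM
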