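import Pool.Agent.H54.TSUM.Walks

/-!
Runs along lists of labels of a relation with small degrees, and the count of arrays which
admit three runs with common ends and two private vertices
(3SUM-Indexing cell probe lower bound, MP_e016b3_lc).
-/

namespace Pool.H54.TSUM

open Finset Function Classical

variable {n U : ℕ} {σ : Type*}

/-- one step; even steps go from left states to right states, odd steps go back -/
def Step (Rel : ℕ → σ → σ → Prop) (k : ℕ) (z : ℕ) (s t : σ) : Prop :=
  if Even k then Rel z s t else Rel z t s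

/-- runs along a list of labels (newest label first), offset `k` for the parity -/
def Run (Rel : ℕ → σ → σ → Prop) (A : Arr n U) (k : ℕ) : List (Label n) → σ → σ → Prop
  | [], s, t => s = t
  | g :: l, s, t => ∃ s', Run Rel A k l s s' ∧ Step Rel (k + l.length) (zv A g) s' t

theorem run_append (Rel : ℕ → σ → σ → Prop) (A : Arr n U) (k : ℕ) (l₁ l₂ : List (Label n))
    (s t : σ) : Run Rel A k (l₁ ++ l₂) s t ↔
      ∃ s', Run Rel A k l₂ s s' ∧ Run Rel A (k + l₂.length) l₁ s' t := by
  induction l₁ generalizing t with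
  | nil =>
    constructor
    · intro h; exact ⟨t, h, rfl⟩
    · rintro ⟨s', h, h'⟩
      have : s' = t := h'
      rw [← this]; exact h
  | cons g l₁ ih =>
    constructor
    · rintro ⟨s', h1, h2⟩
      obtain ⟨s'', h3, h4⟩ := (ih s').1 h1
      refine ⟨s'', h3, s', h4, ?_⟩
      have : k + l₂.length + l₁.length = k + (l₁ ++ l₂).length := by
        rw [List.length_append]; ring
      rw [this]; exact h2
    · rintro ⟨s'', h3, s', h4, h2⟩
      refine ⟨s', (ih s').2 ⟨s'', h3, h4⟩, ?_⟩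
      have : k + l₂.length + l₁.length = k + (l₁ ++ l₂).length := by
        rw [List.length_append]; ring
      rw [this] at h2; exact h2

theorem run_congr (Rel : ℕ → σ → σ → Prop) (A A' : Arr n U) (k : ℕ) (l : List (Label n))
    (h : ∀ g ∈ l, zv A g = zv A' g) (s t : σ) : Run Rel A k l s t ↔ Run Rel A' k l s t := by
  induction l generalizing t with
  | nil => exact Iff.rfl
  | cons g l ih =>
    have ih' := ih (fun g' hg' => h g' (List.mem_cons_of_mem _ hg'))
    have hg := h g List.mem_cons_self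
    constructor
    · rintro ⟨s', h1, h2⟩
      exact ⟨s', (ih' s').1 h1, hg ▸ h2⟩
    · rintro ⟨s', h1, h2⟩
      exact ⟨s', (ih' s').2 h1, hg ▸ h2⟩

theorem zv_update {A : Arr n U} {α : Vtx n} {x : Fin U} {g : Label n} (h : ¬ Touches α g) :
    zv (update A α x) g = zv A g := by
  unfold zv
  rw [update_of_ne (fun hc => h (Or.inl hc.symm)), update_of_ne (fun hc => h (Or.inr hc.symm))]

variable [Fintype σ]

theorem fwd_card (Rel : ℕ → σ → σ → Prop) (K : ℕ)
    (h1 : ∀ z s, ((univ : Finset σ).filter (fun t => Rel z s t)).card ≤ K)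
    (h2 : ∀ z t, ((univ : Finset σ).filter (fun s => Rel z s t)).card ≤ K)
    (A : Arr n U) (k : ℕ) (l : List (Label n)) (s : σ) :
    ((univ : Finset σ).filter (fun t => Run Rel A k l s t)).card ≤ K ^ l.length := by
  induction l with
  | nil =>
    rw [List.length_nil, pow_zero]
    refine card_le_one.2 (fun a ha b hb => ?_)
    have e1 : s = a := (mem_filter.1 ha).2
    have e2 : s = b := (mem_filter.1 hb).2
    rw [← e1, ← e2]
  | cons g l ih =>
    have hsub : (univ : Finset σ).filter (fun t => Run Rel A k (g :: l) s t) ⊆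
        ((univ : Finset σ).filter (fun t => Run Rel A k l s t)).biUnion
          (fun s' => (univ : Finset σ).filter (fun t => Step Rel (k + l.length) (zv A g) s' t)) := by
      intro t ht
      obtain ⟨s', e1, e2⟩ := (mem_filter.1 ht).2
      rw [mem_biUnion]
      exact ⟨s', mem_filter.2 ⟨mem_univ _, e1⟩, mem_filter.2 ⟨mem_univ _, e2⟩⟩
    refine (card_le_card hsub).trans ((card_biUnion_le_card_mul _ _ K (fun s' _ => ?_)).trans ?_)
    · unfold Step
      split_ifs
      · exact h1 _ _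
      · exact h2 _ _
    · rw [List.length_cons, pow_succ]
      exact Nat.mul_le_mul_right _ ih

theorem bwd_card (Rel : ℕ → σ → σ → Prop) (K : ℕ)
    (h1 : ∀ z s, ((univ : Finset σ).filter (fun t => Rel z s t)).card ≤ K)
    (h2 : ∀ z t, ((univ : Finset σ).filter (fun s => Rel z s t)).card ≤ K)
    (A : Arr n U) (k : ℕ) (l : List (Label n)) (t : σ) :
    ((univ : Finset σ).filter (fun s => Run Rel A k l s t)).card ≤ K ^ l.length := by
  induction l generalizing t with
  | nil =>
    rw [List.length_nil, pow_zero]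
    refine card_le_one.2 (fun a ha b hb => ?_)
    have e1 : a = t := (mem_filter.1 ha).2
    have e2 : b = t := (mem_filter.1 hb).2
    rw [e1, e2]
  | cons g l ih =>
    have hsub : (univ : Finset σ).filter (fun s => Run Rel A k (g :: l) s t) ⊆
        ((univ : Finset σ).filter (fun s' => Step Rel (k + l.length) (zv A g) s' t)).biUnion
          (fun s' => (univ : Finset σ).filter (fun s => Run Rel A k l s s')) := by
      intro s hs
      obtain ⟨s', e1, e2⟩ := (mem_filter.1 hs).2
      rw [mem_biUnion]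
      exact ⟨s', mem_filter.2 ⟨mem_univ _, e2⟩, mem_filter.2 ⟨mem_univ _, e1⟩⟩
    refine (card_le_card hsub).trans
      ((card_biUnion_le_card_mul _ _ (K ^ l.length) (fun s' _ => ih s')).trans ?_)
    rw [List.length_cons, pow_succ, mul_comm]
    refine Nat.mul_le_mul_left _ ?_
    unfold Step
    split_ifs
    · exact h2 _ _
    · exact h1 _ _

/-- splitting a list at the unique label which touches `α` -/
theorem split_of_dg_one (l : List (Label n)) (α : Vtx n) (h : dg l α = 1) :
    ∃ (l₁ : List (Label n)) (f : Label n) (l₂ : List (Label n)),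
      l = l₁ ++ f :: l₂ ∧ Touches α f ∧ dg l₁ α = 0 ∧ dg l₂ α = 0 := by
  have hpos : 0 < dg l α := by omega
  rw [dg_pos_iff] at hpos
  obtain ⟨f, hf, ht⟩ := hpos
  obtain ⟨l₁, l₂, rfl⟩ := List.append_of_mem hf
  rw [dg_append, dg_cons, if_pos ht] at h
  exact ⟨l₁, f, l₂, rfl, ht, by omega, by omega⟩

theorem not_touches_of_dg {l : List (Label n)} {α : Vtx n} (h : dg l α = 0) :
    ∀ g ∈ l, ¬ Touches α g := by
  intro g hg ht
  have : 0 < dg l α := (dg_pos_iff l α).2 ⟨g, hg, ht⟩
  omega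

omit [Fintype σ] in
theorem step_z_card (Rel : ℕ → σ → σ → Prop) (U c : ℕ)
    (h3 : ∀ s t, ((range (2 * U)).filter (fun z => Rel z s t)).card ≤ c)
    (k : ℕ) (p q : σ) :
    ((range (2 * U)).filter (fun z => Step Rel k z p q)).card ≤ c := by
  unfold Step
  split_ifs
  · exact h3 _ _
  · exact h3 _ _

omit [Fintype σ] in
/-- the number of values of the private entry -/
theorem priv_card (Rel : ℕ → σ → σ → Prop) (c : ℕ)
    (h3 : ∀ s t, ((range (2 * U)).filter (fun z => Rel z s t)).card ≤ c)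
    (k : ℕ) (p q : σ) (e : Fin U) :
    ((univ : Finset (Fin U)).filter (fun x => Step Rel k (x.val + e.val) p q)).card ≤ c := by
  refine le_trans (card_le_card_of_injOn (fun x => x.val + e.val) ?_ ?_)
    (step_z_card Rel U c h3 k p q)
  · intro x hx
    have hx' := (mem_filter.1 (mem_coe.1 hx)).2
    refine mem_coe.2 (mem_filter.2 ⟨mem_range.2 ?_, hx'⟩)
    have := x.isLt
    have := e.isLt
    show x.val + e.val < 2 * U
    omega
  · intro x _ y _ h
    have : x.val + e.val = y.val + e.val := h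
    exact Fin.ext (by omega)

/-- the value of the other entry of a label that touches `α` -/
theorem other_entry (A : Arr n U) (α : Vtx n) (f : Label n) (hf : Touches α f) :
    ∃ e : Fin U, ∀ A' : Arr n U, (∀ γ, γ ≠ α → Touches γ f → A' γ = A γ) →
      zv A' f = (A' α).val + e.val := by
  rcases hf with h | h
  · refine ⟨A (Sum.inr f.2), fun A' hA' => ?_⟩
    unfold zv
    rw [hA' (Sum.inr f.2) (by rw [h]; simp) (Or.inr rfl), h]
  · refine ⟨A (Sum.inl f.1), fun A' hA' => ?_⟩
    unfold zv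
    rw [hA' (Sum.inl f.1) (by rw [h]; simp) (Or.inl rfl), h, add_comm]

theorem third_index : ∀ a b : Fin 3, a ≠ b → ∃ d : Fin 3, d ≠ a ∧ d ≠ b := by decide

theorem conf_count (Rel : ℕ → σ → σ → Prop) (K c m : ℕ) (hK : 0 < K)
    (h1 : ∀ z s, ((univ : Finset σ).filter (fun t => Rel z s t)).card ≤ K)
    (h2 : ∀ z t, ((univ : Finset σ).filter (fun s => Rel z s t)).card ≤ K)
    (h3 : ∀ s t, ((range (2 * U)).filter (fun z => Rel z s t)).card ≤ c)
    (w : Fin 3 → List (Label n)) (hw : ∀ i, (w i).length = m)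
    (a b : Fin 3) (hab : a ≠ b) (α β : Vtx n)
    (hα : dg (w a) α = 1 ∧ ∀ i, i ≠ a → dg (w i) α = 0)
    (hβ : dg (w b) β = 1 ∧ ∀ i, i ≠ b → dg (w i) β = 0) :
    ((univ : Finset (Arr n U)).filter (fun A => ∃ s t, ∀ i, Run Rel A 0 (w i) s t)).card * U ^ 2
      ≤ U ^ (2 * n) *
        (Fintype.card σ * (K ^ m * (K ^ m * (K ^ m * (K ^ m * (K ^ m * (c * c))))))) := by
  have hne : α ≠ β := by
    rintro rfl
    have := hβ.2 a hab
    omega
  obtain ⟨l₁, f, l₂, hwa, hf, hα1, hα2⟩ := split_of_dg_one (w a) α hα.1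
  obtain ⟨l₁', f', l₂', hwb, hf', hβ1, hβ2⟩ := split_of_dg_one (w b) β hβ.1
  obtain ⟨d, hda, hdb⟩ := third_index a b hab
  have hcardV : U ^ (2 * n) = U ^ Fintype.card (Vtx n) := by
    rw [Fintype.card_sum, Fintype.card_fin, two_mul]
  rw [hcardV]
  refine two_coord α β hne _ _ (fun A₀ => ?_)
  -- lists that avoid both private vertices
  have hβa : dg (w a) β = 0 := hβ.2 a hab
  have hαb : dg (w b) α = 0 := hα.2 b (Ne.symm hab)
  rw [hwa, dg_append, dg_cons] at hβa
  rw [hwb, dg_append, dg_cons] at hαb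
  have hfβ : ¬ Touches β f := by
    intro hc; rw [if_pos hc] at hβa; omega
  have hfα : ¬ Touches α f' := by
    intro hc; rw [if_pos hc] at hαb; omega
  have avoid : ∀ l : List (Label n), dg l α = 0 → dg l β = 0 → ∀ (x y : Fin U) (k : ℕ) (s t : σ),
      Run Rel (update (update A₀ α x) β y) k l s t → Run Rel A₀ k l s t := by
    intro l e1 e2 x y k s t hrun
    refine (run_congr Rel _ _ k l (fun g hg => ?_) s t).1 hrun
    rw [zv_update (not_touches_of_dg e2 g hg), zv_update (not_touches_of_dg e1 g hg)]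
  obtain ⟨e, he⟩ := other_entry A₀ α f hf
  obtain ⟨e', he'⟩ := other_entry A₀ β f' hf'
  have hsub : (univ : Finset (Fin U × Fin U)).filter (fun p =>
      update (update A₀ α p.1) β p.2 ∈
        (univ : Finset (Arr n U)).filter (fun A => ∃ s t, ∀ i, Run Rel A 0 (w i) s t)) ⊆
      (univ : Finset σ).biUnion (fun s =>
        ((univ : Finset σ).filter (fun t => Run Rel A₀ 0 (w d) s t)).biUnion (fun t =>
        ((univ : Finset σ).filter (fun p => Run Rel A₀ 0 l₂ s p)).biUnion (fun p =>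
        ((univ : Finset σ).filter (fun q => Run Rel A₀ (l₂.length + 1) l₁ q t)).biUnion (fun q =>
        ((univ : Finset σ).filter (fun p' => Run Rel A₀ 0 l₂' s p')).biUnion (fun p' =>
        ((univ : Finset σ).filter (fun q' => Run Rel A₀ (l₂'.length + 1) l₁' q' t)).biUnion
          (fun q' =>
          ((univ : Finset (Fin U)).filter (fun x => Step Rel l₂.length (x.val + e.val) p q)) ×ˢ
          ((univ : Finset (Fin U)).filter
            (fun x => Step Rel l₂'.length (x.val + e'.val) p' q')))))))) := by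
    intro xy hxy
    rw [mem_filter, mem_filter] at hxy
    obtain ⟨_, _, s, t, hrun⟩ := hxy
    set A' := update (update A₀ α xy.1) β xy.2 with hA'
    have hra := hrun a
    have hrb := hrun b
    rw [hwa, run_append] at hra
    rw [hwb, run_append] at hrb
    obtain ⟨q, ⟨p, hp1, hp2⟩, hq⟩ := hra
    obtain ⟨q', ⟨p', hp1', hp2'⟩, hq'⟩ := hrb
    have hzf : zv A' f = xy.1.val + e.val := by
      rw [he A' ?_]
      · rw [hA', update_of_ne hne, update_self]
      · intro γ hγ hγf
        have : γ ≠ β := by rintro rfl; exact hfβ hγf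
        rw [hA', update_of_ne this, update_of_ne hγ]
    have hzf' : zv A' f' = xy.2.val + e'.val := by
      rw [he' A' ?_]
      · rw [hA', update_self]
      · intro γ hγ hγf
        have : γ ≠ α := by rintro rfl; exact hfα hγf
        rw [hA', update_of_ne hγ, update_of_ne this]
    rw [mem_biUnion]
    refine ⟨s, mem_univ _, ?_⟩
    rw [mem_biUnion]
    refine ⟨t, mem_filter.2 ⟨mem_univ _, avoid _ (hα.2 d hda) (hβ.2 d hdb) _ _ _ _ _ (hrun d)⟩, ?_⟩
    rw [mem_biUnion]
    refine ⟨p, mem_filter.2 ⟨mem_univ _, avoid l₂ hα2 (by omega) _ _ _ _ _ hp1⟩, ?_⟩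
    rw [mem_biUnion]
    refine ⟨q, mem_filter.2 ⟨mem_univ _, ?_⟩, ?_⟩
    · have := avoid l₁ hα1 (by omega) _ _ _ _ _ hq
      rwa [zero_add, List.length_cons] at this
    rw [mem_biUnion]
    refine ⟨p', mem_filter.2 ⟨mem_univ _, avoid l₂' (by omega) hβ2 _ _ _ _ _ hp1'⟩, ?_⟩
    rw [mem_biUnion]
    refine ⟨q', mem_filter.2 ⟨mem_univ _, ?_⟩, ?_⟩
    · have := avoid l₁' (by omega) hβ1 _ _ _ _ _ hq'
      rwa [zero_add, List.length_cons] at this
    rw [mem_product]
    constructor
    · refine mem_filter.2 ⟨mem_univ _, ?_⟩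
      rw [zero_add, hzf] at hp2
      exact hp2
    · refine mem_filter.2 ⟨mem_univ _, ?_⟩
      rw [zero_add, hzf'] at hp2'
      exact hp2'
  have hlen1 : ∀ l : List (Label n), l.length ≤ m → K ^ l.length ≤ K ^ m := fun l hl =>
    Nat.pow_le_pow_right hK hl
  have hla : l₁.length + (l₂.length + 1) = m := by
    rw [← hw a, hwa, List.length_append, List.length_cons]
  have hlb : l₁'.length + (l₂'.length + 1) = m := by
    rw [← hw b, hwb, List.length_append, List.length_cons]
  have bound : ∀ (F : Finset σ) (G : σ → Finset (Fin U × Fin U)) (B C : ℕ), F.card ≤ B →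
      (∀ s ∈ F, (G s).card ≤ C) → (F.biUnion G).card ≤ B * C := by
    intro F G B C e1 e2
    exact (card_biUnion_le_card_mul F G C e2).trans (Nat.mul_le_mul_right _ e1)
  refine (card_le_card hsub).trans ?_
  refine bound _ _ _ _ (le_of_eq card_univ) (fun s _ => ?_)
  refine bound _ _ _ _ ((fwd_card Rel K h1 h2 A₀ 0 (w d) s).trans
    (hlen1 _ (le_of_eq (hw d)))) (fun t _ => ?_)
  refine bound _ _ _ _ ((fwd_card Rel K h1 h2 A₀ 0 l₂ s).trans
    (hlen1 _ (by omega))) (fun p _ => ?_)
  refine bound _ _ _ _ ((bwd_card Rel K h1 h2 A₀ _ l₁ t).trans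
    (hlen1 _ (by omega))) (fun q _ => ?_)
  refine bound _ _ _ _ ((fwd_card Rel K h1 h2 A₀ 0 l₂' s).trans
    (hlen1 _ (by omega))) (fun p' _ => ?_)
  refine bound _ _ _ _ ((bwd_card Rel K h1 h2 A₀ _ l₁' t).trans
    (hlen1 _ (by omega))) (fun q' _ => ?_)
  rw [card_product]
  exact Nat.mul_le_mul (priv_card Rel c h3 _ _ _ e) (priv_card Rel c h3 _ _ _ e')

/-- the number of arrays for which some configuration exists -/
theorem all_conf_count (Rel : ℕ → σ → σ → Prop) (K c m : ℕ) (hK : 0 < K)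
    (h1 : ∀ z s, ((univ : Finset σ).filter (fun t => Rel z s t)).card ≤ K)
    (h2 : ∀ z t, ((univ : Finset σ).filter (fun s => Rel z s t)).card ≤ K)
    (h3 : ∀ s t, ((range (2 * U)).filter (fun z => Rel z s t)).card ≤ c) :
    ((univ : Finset (Arr n U)).filter (fun A => ∃ w : Fin 3 → List (Label n),
      (∀ i, (w i).length = m) ∧ (∃ a b : Fin 3, a ≠ b ∧ ∃ α β : Vtx n,
      (dg (w a) α = 1 ∧ ∀ i, i ≠ a → dg (w i) α = 0) ∧
      (dg (w b) β = 1 ∧ ∀ i, i ≠ b → dg (w i) β = 0)) ∧
      ∃ s t, ∀ i, Run Rel A 0 (w i) s t)).card * U ^ 2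
      ≤ (((n ^ 2) ^ m) ^ 3 * (9 * (2 * n) ^ 2)) * (U ^ (2 * n) *
        (Fintype.card σ * (K ^ m * (K ^ m * (K ^ m * (K ^ m * (K ^ m * (c * c)))))))) := by
  set I : Finset ((Fin 3 → List (Label n)) × ((Fin 3 × Fin 3) × (Vtx n × Vtx n))) :=
    (Fintype.piFinset (fun _ : Fin 3 => grow (fun _ => (univ : Finset (Label n))) m)) ×ˢ univ
    with hI
  set good : (Fin 3 → List (Label n)) × ((Fin 3 × Fin 3) × (Vtx n × Vtx n)) → Prop := fun q =>
    q.2.1.1 ≠ q.2.1.2 ∧
      (dg (q.1 q.2.1.1) q.2.2.1 = 1 ∧ ∀ i, i ≠ q.2.1.1 → dg (q.1 i) q.2.2.1 = 0) ∧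
      (dg (q.1 q.2.1.2) q.2.2.2 = 1 ∧ ∀ i, i ≠ q.2.1.2 → dg (q.1 i) q.2.2.2 = 0) with hgood
  have hIcard : I.card = ((n ^ 2) ^ m) ^ 3 * (9 * (2 * n) ^ 2) := by
    rw [hI, card_product, Fintype.card_piFinset]
    simp only [prod_const, card_univ, Fintype.card_fin, card_grow_const, Fintype.card_prod,
      Fintype.card_sum]
    ring
  set X : (Fin 3 → List (Label n)) × ((Fin 3 × Fin 3) × (Vtx n × Vtx n)) → Finset (Arr n U) :=
    fun q => (univ : Finset (Arr n U)).filter (fun A => ∃ s t, ∀ i, Run Rel A 0 (q.1 i) s t)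
    with hX
  have hsub : (univ : Finset (Arr n U)).filter (fun A => ∃ w : Fin 3 → List (Label n),
      (∀ i, (w i).length = m) ∧ (∃ a b : Fin 3, a ≠ b ∧ ∃ α β : Vtx n,
      (dg (w a) α = 1 ∧ ∀ i, i ≠ a → dg (w i) α = 0) ∧
      (dg (w b) β = 1 ∧ ∀ i, i ≠ b → dg (w i) β = 0)) ∧
      ∃ s t, ∀ i, Run Rel A 0 (w i) s t) ⊆ (I.filter good).biUnion X := by
    intro A hA
    rw [mem_filter] at hA
    obtain ⟨_, w, hw, ⟨a, b, hab, α, β, hα, hβ⟩, hst⟩ := hA
    rw [mem_biUnion]
    refine ⟨(w, ((a, b), (α, β))), ?_, ?_⟩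
    · rw [mem_filter, hI, mem_product, Fintype.mem_piFinset]
      refine ⟨⟨fun i => ?_, mem_univ _⟩, hab, hα, hβ⟩
      rw [mem_grow_const]
      exact ⟨hw i, fun g _ => mem_univ _⟩
    · exact mem_filter.2 ⟨mem_univ _, hst⟩
  calc _ ≤ ((I.filter good).biUnion X).card * U ^ 2 := Nat.mul_le_mul_right _ (card_le_card hsub)
    _ ≤ (∑ q ∈ I.filter good, (X q).card) * U ^ 2 := Nat.mul_le_mul_right _ card_biUnion_le
    _ = ∑ q ∈ I.filter good, (X q).card * U ^ 2 := by rw [sum_mul]
    _ ≤ ∑ q ∈ I.filter good, (U ^ (2 * n) *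
        (Fintype.card σ * (K ^ m * (K ^ m * (K ^ m * (K ^ m * (K ^ m * (c * c)))))))) := by
        refine sum_le_sum (fun q hq => ?_)
        rw [mem_filter, hI, mem_product, Fintype.mem_piFinset] at hq
        obtain ⟨⟨hq1, _⟩, hab, hα, hβ⟩ := hq
        exact conf_count Rel K c m hK h1 h2 h3 q.1
          (fun i => length_of_mem_grow _ _ _ (hq1 i)) _ _ hab _ _ hα hβ
    _ ≤ ∑ q ∈ I, (U ^ (2 * n) *
        (Fintype.card σ * (K ^ m * (K ^ m * (K ^ m * (K ^ m * (K ^ m * (c * c)))))))) :=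
        sum_le_sum_of_subset (filter_subset _ _)
    _ = _ := by rw [sum_const, smul_eq_mul, hIcard]

end Pool.H54.TSUM
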