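import Pool.Agent.H54.TSUM.Run
import Pool.Agent.H54.TSUM.Defs

/-!
Two-probe schemes, the relation between cell contents, heavy queries, and the events
that few pairs of arrays satisfy (3SUM-Indexing cell probe lower bound, MP_e016b3_lc).
-/

namespace Pool.H54.TSUM

open Finset Function Classical

section heavy

variable {σ : Type*} [Fintype σ]

/-- number of right states compatible with the left state `s` and the query `z` -/
noncomputable def nr (Z : σ → σ → Finset ℕ) (s : σ) (z : ℕ) : ℕ :=
  ((univ : Finset σ).filter (fun t => z ∈ Z s t ∧ (Z s t).card ≤ 4)).card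

/-- queries with more than `K` compatible right states -/
noncomputable def heavy (U : ℕ) (Z : σ → σ → Finset ℕ) (K : ℕ) (s : σ) : Finset ℕ :=
  (range (2 * U)).filter (fun z => K < nr Z s z)

theorem heavy_card (U : ℕ) (Z : σ → σ → Finset ℕ) (K : ℕ) (s : σ) :
    (heavy U Z K s).card * (K + 1) ≤ 4 * Fintype.card σ := by
  calc (heavy U Z K s).card * (K + 1) = ∑ z ∈ heavy U Z K s, (K + 1) := by
        rw [sum_const, smul_eq_mul]
    _ ≤ ∑ z ∈ heavy U Z K s, nr Z s z :=
        sum_le_sum (fun z hz => (mem_filter.1 hz).2)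
    _ = ∑ z ∈ heavy U Z K s, ∑ t : σ, (if z ∈ Z s t ∧ (Z s t).card ≤ 4 then 1 else 0) := by
        refine sum_congr rfl (fun z _ => ?_)
        rw [nr, card_filter]
    _ = ∑ t : σ, ∑ z ∈ heavy U Z K s, (if z ∈ Z s t ∧ (Z s t).card ≤ 4 then 1 else 0) :=
        sum_comm
    _ ≤ ∑ t : σ, 4 := by
        refine sum_le_sum (fun t _ => ?_)
        by_cases h : (Z s t).card ≤ 4
        · calc _ ≤ ((heavy U Z K s).filter (fun z => z ∈ Z s t ∧ (Z s t).card ≤ 4)).card := by
                rw [card_filter]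
            _ ≤ (Z s t).card := card_le_card (fun z hz => (mem_filter.1 hz).2.1)
            _ ≤ 4 := h
        · have : ∑ z ∈ heavy U Z K s, (if z ∈ Z s t ∧ (Z s t).card ≤ 4 then 1 else 0) = 0 := by
            refine sum_eq_zero (fun z _ => ?_)
            rw [if_neg (fun hc => h hc.2)]
          rw [this]; exact Nat.zero_le _
    _ = 4 * Fintype.card σ := by rw [sum_const, smul_eq_mul, card_univ, mul_comm]

/-- the relation between left and right states used for the runs -/
def RelZ (Z : σ → σ → Finset ℕ) (K : ℕ) (z : ℕ) (s t : σ) : Prop :=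
  z ∈ Z s t ∧ (Z s t).card ≤ 4 ∧ nr Z s z ≤ K ∧ nr (fun a b => Z b a) t z ≤ K

theorem relZ_right (Z : σ → σ → Finset ℕ) (K : ℕ) (z : ℕ) (s : σ) :
    ((univ : Finset σ).filter (fun t => RelZ Z K z s t)).card ≤ K := by
  by_cases h : nr Z s z ≤ K
  · refine le_trans (card_le_card (fun t ht => ?_)) h
    have h1 := (mem_filter.1 ht).2
    exact mem_filter.2 ⟨mem_univ _, h1.1, h1.2.1⟩
  · have : (univ : Finset σ).filter (fun t => RelZ Z K z s t) = ∅ := by
      rw [filter_eq_empty_iff]
      intro t _ h1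
      exact h h1.2.2.1
    rw [this]; exact Nat.zero_le _

theorem relZ_left (Z : σ → σ → Finset ℕ) (K : ℕ) (z : ℕ) (t : σ) :
    ((univ : Finset σ).filter (fun s => RelZ Z K z s t)).card ≤ K := by
  by_cases h : nr (fun a b => Z b a) t z ≤ K
  · refine le_trans (card_le_card (fun s hs => ?_)) h
    have h1 := (mem_filter.1 hs).2
    exact mem_filter.2 ⟨mem_univ _, h1.1, h1.2.1⟩
  · have : (univ : Finset σ).filter (fun s => RelZ Z K z s t) = ∅ := by
      rw [filter_eq_empty_iff]
      intro t _ h1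
      exact h h1.2.2.2
    rw [this]; exact Nat.zero_le _

theorem relZ_z (Z : σ → σ → Finset ℕ) (K U : ℕ) (s t : σ) :
    ((range (2 * U)).filter (fun z => RelZ Z K z s t)).card ≤ 4 := by
  by_cases h : (Z s t).card ≤ 4
  · refine le_trans (card_le_card (fun z hz => ?_)) h
    exact (mem_filter.1 hz).2.1
  · have : (range (2 * U)).filter (fun z => RelZ Z K z s t) = ∅ := by
      rw [filter_eq_empty_iff]
      intro z _ h1
      exact h h1.2.1
    rw [this]; exact Nat.zero_le _

end heavy

section events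

variable {n U S W : ℕ}

/-- queries that are answered positively by the contents `s`, `t` of two cells -/
noncomputable def Zs (P : TwoProbe S W) (U : ℕ) (s t : Fin S × Fin W) : Finset ℕ :=
  (range (2 * U)).filter (fun z => P.p1 z = s.1 ∧ P.p2 z s.2 = t.1 ∧ P.ans z s.2 t.2 = true)

/-- the memory `M` answers all queries correctly for the arrays `A` -/
def Correct (P : TwoProbe S W) (A : Arr n U) (M : Fin S → Fin W) : Prop :=
  ∀ z, P.run M z = true ↔ ∃ g : Label n, zv A g = z

/-- event (a) : two cells answer more than four queries positively -/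
theorem event_a (P : TwoProbe S W) (M : Arr n U → Fin S → Fin W)
    (hM : ∀ A, Correct P A (M A)) :
    ((univ : Finset (Arr n U)).filter (fun A => ∃ i j : Fin S,
      4 < (Zs P U (i, M A i) (j, M A j)).card)).card * U ^ 3
      ≤ (S * W) ^ 2 * ((n ^ 2) ^ 3 * (U ^ (2 * n) * (n ^ 2) ^ 3)) := by
  set I : Finset ((Fin S × Fin W) × (Fin S × Fin W)) :=
    univ.filter (fun q => (Zs P U q.1 q.2).card ≤ n ^ 2) with hI
  set X : (Fin S × Fin W) × (Fin S × Fin W) → Finset (Arr n U) := fun q =>
    univ.filter (fun A => (3 - 1) ^ 2 <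
      ((univ : Finset (Label n)).filter (fun g => zv A g ∈ Zs P U q.1 q.2)).card) with hX
  have hsub : (univ : Finset (Arr n U)).filter (fun A => ∃ i j : Fin S,
      4 < (Zs P U (i, M A i) (j, M A j)).card) ⊆ I.biUnion X := by
    intro A hA
    rw [mem_filter] at hA
    obtain ⟨_, i, j, hij⟩ := hA
    have h1 : Zs P U (i, M A i) (j, M A j) ⊆
        ((univ : Finset (Label n)).filter
          (fun g => zv A g ∈ Zs P U (i, M A i) (j, M A j))).image (zv A) := by
      intro z hz
      have hz' := hz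
      unfold Zs at hz'
      rw [mem_filter] at hz'
      obtain ⟨_, h1, h2, h3⟩ := hz'
      have h4 : P.run (M A) z = true := by
        unfold TwoProbe.run
        rw [h1, h2]; exact h3
      obtain ⟨g, hg⟩ := (hM A z).1 h4
      rw [mem_image]
      exact ⟨g, mem_filter.2 ⟨mem_univ _, by rw [hg]; exact hz⟩, hg⟩
    have h2 := (card_le_card h1).trans card_image_le
    rw [mem_biUnion]
    refine ⟨((i, M A i), (j, M A j)), ?_, ?_⟩
    · rw [hI, mem_filter]
      refine ⟨mem_univ _, h2.trans ((card_filter_le _ _).trans ?_)⟩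
      rw [card_univ, Fintype.card_prod, Fintype.card_fin, pow_two]
    · rw [hX, mem_filter]
      refine ⟨mem_univ _, ?_⟩
      show (3 - 1) ^ 2 < _
      exact lt_of_lt_of_le hij h2
  calc _ ≤ (I.biUnion X).card * U ^ 3 := Nat.mul_le_mul_right _ (card_le_card hsub)
    _ ≤ (∑ q ∈ I, (X q).card) * U ^ 3 := Nat.mul_le_mul_right _ card_biUnion_le
    _ = ∑ q ∈ I, (X q).card * U ^ 3 := by rw [sum_mul]
    _ ≤ ∑ q ∈ I, ((n ^ 2) ^ 3 * (U ^ (2 * n) * (n ^ 2) ^ 3)) := by
        refine sum_le_sum (fun q hq => ?_)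
        rw [hI, mem_filter] at hq
        refine (count_sq (U := U) (Zs P U q.1 q.2) 3).trans ?_
        exact Nat.mul_le_mul_left _ (Nat.mul_le_mul_left _ (Nat.pow_le_pow_left hq.2 3))
    _ ≤ ∑ q : (Fin S × Fin W) × (Fin S × Fin W), ((n ^ 2) ^ 3 * (U ^ (2 * n) * (n ^ 2) ^ 3)) :=
        sum_le_sum_of_subset (filter_subset _ _)
    _ = _ := by
        rw [sum_const, smul_eq_mul, card_univ]
        simp only [Fintype.card_prod, Fintype.card_fin]
        rw [pow_two (S * W)]

/-- events (b), (c) : some state has many labels with heavy queries -/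
theorem event_b {σ : Type*} [Fintype σ] (Z : σ → σ → Finset ℕ) (K q : ℕ) :
    ((univ : Finset (Arr n U)).filter (fun A => ∃ s : σ,
      (q - 1) ^ 2 < ((univ : Finset (Label n)).filter
        (fun g => zv A g ∈ heavy U Z K s)).card)).card * (U ^ q * (K + 1) ^ q)
      ≤ Fintype.card σ * ((n ^ 2) ^ q * (U ^ (2 * n) * (4 * Fintype.card σ) ^ q)) := by
  set X : σ → Finset (Arr n U) := fun s =>
    univ.filter (fun A => (q - 1) ^ 2 <
      ((univ : Finset (Label n)).filter (fun g => zv A g ∈ heavy U Z K s)).card) with hX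
  have hsub : (univ : Finset (Arr n U)).filter (fun A => ∃ s : σ,
      (q - 1) ^ 2 < ((univ : Finset (Label n)).filter
        (fun g => zv A g ∈ heavy U Z K s)).card) ⊆ (univ : Finset σ).biUnion X := by
    intro A hA
    obtain ⟨s, hs⟩ := (mem_filter.1 hA).2
    rw [mem_biUnion]
    exact ⟨s, mem_univ _, mem_filter.2 ⟨mem_univ _, hs⟩⟩
  calc _ ≤ ((univ : Finset σ).biUnion X).card * (U ^ q * (K + 1) ^ q) :=
        Nat.mul_le_mul_right _ (card_le_card hsub)
    _ ≤ (∑ s : σ, (X s).card) * (U ^ q * (K + 1) ^ q) := Nat.mul_le_mul_right _ card_biUnion_le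
    _ = ∑ s : σ, ((X s).card * U ^ q) * (K + 1) ^ q := by
        rw [sum_mul]
        exact sum_congr rfl (fun s _ => by ring)
    _ ≤ ∑ s : σ, ((n ^ 2) ^ q * (U ^ (2 * n) * (4 * Fintype.card σ) ^ q)) := by
        refine sum_le_sum (fun s _ => ?_)
        refine (Nat.mul_le_mul_right _ (count_sq (U := U) (heavy U Z K s) q)).trans ?_
        have h1 : ((heavy U Z K s).card * (K + 1)) ^ q ≤ (4 * Fintype.card σ) ^ q :=
          Nat.pow_le_pow_left (heavy_card U Z K s) q
        calc _ = (n ^ 2) ^ q * (U ^ (2 * n) * ((heavy U Z K s).card * (K + 1)) ^ q) := by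
              rw [mul_pow]; ring
          _ ≤ _ := Nat.mul_le_mul_left _ (Nat.mul_le_mul_left _ h1)
    _ = _ := by rw [sum_const, smul_eq_mul, card_univ]

/-- event (d) : many labels through one label vertex lie in one of the given blocks -/
def EvD {V : Type*} [DecidableEq V] (vb : ℕ → V) (J : Finset V) (m₀ : ℕ) (A : Arr n U) : Prop :=
  ∃ α : Vtx n, ∃ v ∈ J, m₀ ≤ ((univ : Finset (Label n)).filter (fun g => Touches α g ∧
        zv A g ∈ (range (2 * U)).filter (fun z => vb z = v))).card

theorem event_d {V : Type*} [DecidableEq V] (vb : ℕ → V) (J : Finset V) (rv m₀ : ℕ)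
    (hrv : ∀ v, ((range (2 * U)).filter (fun z => vb z = v)).card ≤ rv) :
    ((univ : Finset (Arr n U)).filter (fun A => EvD vb J m₀ A)).card * U ^ m₀
      ≤ (2 * n * J.card) * (n ^ m₀ * (U ^ (2 * n) * rv ^ m₀)) := by
  set X : Vtx n × V → Finset (Arr n U) := fun q =>
    univ.filter (fun A => m₀ ≤ ((univ : Finset (Label n)).filter (fun g => Touches q.1 g ∧
        zv A g ∈ (range (2 * U)).filter (fun z => vb z = q.2))).card) with hX
  have hsub : (univ : Finset (Arr n U)).filter (fun A => EvD vb J m₀ A) ⊆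
      ((univ : Finset (Vtx n)) ×ˢ J).biUnion X := by
    intro A hA
    obtain ⟨α, v, hv, hs⟩ := (mem_filter.1 hA).2
    rw [mem_biUnion]
    exact ⟨(α, v), mem_product.2 ⟨mem_univ _, hv⟩, mem_filter.2 ⟨mem_univ _, hs⟩⟩
  calc _ ≤ (((univ : Finset (Vtx n)) ×ˢ J).biUnion X).card * U ^ m₀ :=
        Nat.mul_le_mul_right _ (card_le_card hsub)
    _ ≤ (∑ q ∈ (univ : Finset (Vtx n)) ×ˢ J, (X q).card) * U ^ m₀ :=
        Nat.mul_le_mul_right _ card_biUnion_le
    _ = ∑ q ∈ (univ : Finset (Vtx n)) ×ˢ J, (X q).card * U ^ m₀ := by rw [sum_mul]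
    _ ≤ ∑ q ∈ (univ : Finset (Vtx n)) ×ˢ J, (n ^ m₀ * (U ^ (2 * n) * rv ^ m₀)) := by
        refine sum_le_sum (fun q _ => ?_)
        refine (count_touch (U := U) q.1
          ((range (2 * U)).filter (fun z => vb z = q.2)) m₀).trans ?_
        exact Nat.mul_le_mul_left _ (Nat.mul_le_mul_left _ (Nat.pow_le_pow_left (hrv q.2) m₀))
    _ = _ := by
        rw [sum_const, smul_eq_mul, card_product, card_univ, Fintype.card_sum, Fintype.card_fin,
          ← two_mul]

end events

end Pool.H54.TSUM
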