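import Pool.Agent.H54.TSUM.Graph

/-!
Walks in a bipartite multigraph whose edges are labels (pairs of array positions); triples of
walks with common ends contain two private vertices on different walks
(3SUM-Indexing cell probe lower bound, MP_e016b3_lc).
-/

namespace Pool.H54.TSUM

open Finset Function Classical

variable {n : ℕ} {V V' : Type*} [DecidableEq V] [DecidableEq V']

/-- possible next labels of a walk starting in the left vertex `u` (newest label first) -/
noncomputable def wext (E : Finset (Label n)) (L : Label n → V) (R : Label n → V') (u : V) :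
    List (Label n) → Finset (Label n)
  | [] => E.filter (fun g => L g = u)
  | h :: t => if Even t.length then E.filter (fun g => R g = R h)
      else E.filter (fun g => L g = L h)

/-- possible next labels of a concatenation of walks of length `m` which all start in `u` -/
noncomputable def text (E : Finset (Label n)) (L : Label n → V) (R : Label n → V') (u : V)
    (m : ℕ) (l : List (Label n)) : Finset (Label n) :=
  if m ∣ l.length then E.filter (fun g => L g = u) else wext E L R u l

/-- cheap positions -/
def Cheap (l : List (Label n)) (g : Label n) : Prop :=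
  if Even l.length then (g.1 ∈ l.map Prod.fst ∨ g.2 ∈ l.map Prod.snd) else Blocked l g

/-- number of cheap positions -/
noncomputable def cheap : List (Label n) → ℕ
  | [] => 0
  | g :: l => cheap l + if Cheap l g then 1 else 0

theorem wext_subset (E : Finset (Label n)) (L : Label n → V) (R : Label n → V') (u : V)
    (l : List (Label n)) : wext E L R u l ⊆ E := by
  cases l with
  | nil => exact filter_subset _ _
  | cons h t =>
    show (if Even t.length then E.filter (fun g => R g = R h)
      else E.filter (fun g => L g = L h)) ⊆ E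
    split_ifs
    · exact filter_subset _ _
    · exact filter_subset _ _

theorem text_subset (E : Finset (Label n)) (L : Label n → V) (R : Label n → V') (u : V)
    (m : ℕ) (l : List (Label n)) : text E L R u m l ⊆ E := by
  unfold text
  split_ifs
  · exact filter_subset _ _
  · exact wext_subset E L R u l

theorem grow_subset_E (E : Finset (Label n)) (ext : List (Label n) → Finset (Label n))
    (hext : ∀ l, ext l ⊆ E) (k : ℕ) (l : List (Label n)) (hl : l ∈ grow ext k) :
    ∀ g ∈ l, g ∈ E := by
  induction k generalizing l with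
  | zero =>
    have : l ∈ ({[]} : Finset (List (Label n))) := hl
    rw [mem_singleton] at this
    rw [this]; intro g hg; exact absurd hg List.not_mem_nil
  | succ k ih =>
    obtain ⟨g, l', rfl, h1, h2⟩ := exists_of_mem_grow_succ ext k l hl
    intro g' hg'
    rcases List.mem_cons.1 hg' with rfl | h5
    · exact hext _ h2
    · exact ih l' h1 g' h5

/-- there are many walks -/
theorem many_walks (E : Finset (Label n)) (L : Label n → V) (R : Label n → V') (D : ℕ)
    (hdeg : ∀ g ∈ E, D ≤ (E.filter (fun g' => L g' = L g)).card ∧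
      D ≤ (E.filter (fun g' => R g' = R g)).card) (g₀ : Label n) (hg₀ : g₀ ∈ E) (k : ℕ) :
    D ^ k ≤ (grow (wext E L R (L g₀)) k).card := by
  induction k with
  | zero => rw [pow_zero]; rfl
  | succ k ih =>
    rw [card_eq_sum_ones, sum_grow_succ]
    simp only [sum_const, smul_eq_mul, mul_one]
    calc D ^ (k + 1) = D ^ k * D := pow_succ _ _
      _ ≤ (grow (wext E L R (L g₀)) k).card * D := Nat.mul_le_mul_right _ ih
      _ = ∑ l ∈ grow (wext E L R (L g₀)) k, D := by rw [sum_const, smul_eq_mul]
      _ ≤ _ := by
        refine sum_le_sum (fun l hl => ?_)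
        cases l with
        | nil => exact (hdeg g₀ hg₀).1
        | cons h t =>
          have hh : h ∈ E := grow_subset_E E _ (wext_subset E L R (L g₀)) k _ hl h
            List.mem_cons_self
          show D ≤ (if Even t.length then E.filter (fun g => R g = R h)
            else E.filter (fun g => L g = L h)).card
          split_ifs
          · exact (hdeg h hh).2
          · exact (hdeg h hh).1

/-- every next-label set is a fibre of `R` at odd length and a fibre of `L` at even length -/
theorem text_cases (E : Finset (Label n)) (L : Label n → V) (R : Label n → V') (u : V)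
    (m : ℕ) (l : List (Label n)) :
    (∃ v, text E L R u m l = E.filter (fun g => L g = v)) ∨
      (¬ Even l.length ∧ ∃ v, text E L R u m l = E.filter (fun g => R g = v)) := by
  unfold text
  split_ifs with hdvd
  · exact Or.inl ⟨u, rfl⟩
  · cases l with
    | nil => exact Or.inl ⟨u, rfl⟩
    | cons h t =>
      by_cases he : Even t.length
      · right
        refine ⟨?_, R h, ?_⟩
        · rw [List.length_cons]
          intro hc
          exact (Nat.even_add_one.1 hc) he
        · show (if Even t.length then E.filter (fun g => R g = R h)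
            else E.filter (fun g => L g = L h)) = _
          rw [if_pos he]
      · left
        refine ⟨L h, ?_⟩
        show (if Even t.length then E.filter (fun g => R g = R h)
            else E.filter (fun g => L g = L h)) = _
        rw [if_neg he]

theorem cheap_count (E : Finset (Label n)) (L : Label n → V) (R : Label n → V')
    (u : V) (m m₀ : ℕ)
    (hm₀ : ∀ (α : Vtx n) (v : V), (E.filter (fun g => L g = v ∧ Touches α g)).card ≤ m₀)
    (k : ℕ) (l : List (Label n)) (hl : l.length ≤ k) :
    ((text E L R u m l).filter (fun g => Cheap l g)).card ≤ 2 * k * m₀ + k ^ 2 := by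
  have hblock : ((text E L R u m l).filter (fun g => Blocked l g)).card ≤ k ^ 2 := by
    calc _ ≤ ((univ : Finset (Label n)).filter (fun g => Blocked l g)).card :=
          card_le_card (filter_subset_filter _ (subset_univ _))
      _ ≤ l.length ^ 2 := blocked_card l
      _ ≤ k ^ 2 := Nat.pow_le_pow_left hl 2
  by_cases he : Even l.length
  · rcases text_cases E L R u m l with ⟨v, hv⟩ | ⟨h, _⟩
    · have h1 : (text E L R u m l).filter (fun g => Cheap l g) ⊆
          ((l.map Prod.fst).toFinset.biUnion (fun a =>
            E.filter (fun g => L g = v ∧ Touches (Sum.inl a) g))) ∪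
          ((l.map Prod.snd).toFinset.biUnion (fun a =>
            E.filter (fun g => L g = v ∧ Touches (Sum.inr a) g))) := by
        intro g hg
        rw [hv, mem_filter, mem_filter] at hg
        obtain ⟨⟨hgE, hgv⟩, hc⟩ := hg
        unfold Cheap at hc
        rw [if_pos he] at hc
        rw [mem_union, mem_biUnion, mem_biUnion]
        rcases hc with hc | hc
        · exact Or.inl ⟨g.1, List.mem_toFinset.2 hc, mem_filter.2 ⟨hgE, hgv, Or.inl rfl⟩⟩
        · exact Or.inr ⟨g.2, List.mem_toFinset.2 hc, mem_filter.2 ⟨hgE, hgv, Or.inr rfl⟩⟩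
      have h2 : ((l.map Prod.fst).toFinset.biUnion (fun a =>
            E.filter (fun g => L g = v ∧ Touches (Sum.inl a) g))).card ≤ k * m₀ := by
        refine (card_biUnion_le_card_mul _ _ m₀ (fun a _ => hm₀ _ _)).trans ?_
        refine Nat.mul_le_mul_right _ ((List.toFinset_card_le _).trans ?_)
        rw [List.length_map]; exact hl
      have h3 : ((l.map Prod.snd).toFinset.biUnion (fun a =>
            E.filter (fun g => L g = v ∧ Touches (Sum.inr a) g))).card ≤ k * m₀ := by
        refine (card_biUnion_le_card_mul _ _ m₀ (fun a _ => hm₀ _ _)).trans ?_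
        refine Nat.mul_le_mul_right _ ((List.toFinset_card_le _).trans ?_)
        rw [List.length_map]; exact hl
      have h4 := (card_le_card h1).trans (card_union_le _ _)
      have h5 : 2 * k * m₀ = k * m₀ + k * m₀ := by ring
      omega
    · exact absurd he h
  · have h1 : (text E L R u m l).filter (fun g => Cheap l g) =
        (text E L R u m l).filter (fun g => Blocked l g) := by
      refine filter_congr (fun g _ => ?_)
      unfold Cheap
      rw [if_neg he]
    rw [h1]
    exact hblock.trans (Nat.le_add_left _ _)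

theorem weight_bound (E : Finset (Label n)) (L : Label n → V) (R : Label n → V')
    (u : V) (m m₀ r N : ℕ)
    (hm₀ : ∀ (α : Vtx n) (v : V), (E.filter (fun g => L g = v ∧ Touches α g)).card ≤ m₀)
    (hL : ∀ v, (E.filter (fun g => L g = v)).card ≤ r)
    (hR : ∀ v, (E.filter (fun g => R g = v)).card ≤ r)
    (k : ℕ) (hk : k ≤ N) :
    ∑ l ∈ grow (text E L R u m) k, r ^ cheap l ≤ ((2 * N * m₀ + N ^ 2 + 1) * r) ^ k := by
  induction k with
  | zero =>
    have : grow (text E L R u m) 0 = {[]} := rfl
    rw [this, sum_singleton]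
    simp [cheap]
  | succ k ih =>
    rw [sum_grow_succ]
    have hstep : ∀ l ∈ grow (text E L R u m) k,
        ∑ g ∈ text E L R u m l, r ^ cheap (g :: l) ≤
          r ^ cheap l * ((2 * N * m₀ + N ^ 2 + 1) * r) := by
      intro l hl
      have hlen := length_of_mem_grow _ _ _ hl
      have h1 : ∀ g ∈ text E L R u m l, r ^ cheap (g :: l) ≤
          r ^ cheap l * ((if Cheap l g then r else 0) + 1) := by
        intro g _
        show r ^ (cheap l + if Cheap l g then 1 else 0) ≤ _
        by_cases h : Cheap l g
        · rw [if_pos h, if_pos h, pow_succ]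
          exact Nat.mul_le_mul_left _ (Nat.le_succ _)
        · rw [if_neg h, if_neg h, add_zero, zero_add, mul_one]
      refine (sum_le_sum h1).trans ?_
      rw [← mul_sum]
      refine Nat.mul_le_mul_left _ ?_
      rw [sum_add_distrib, ← sum_filter, sum_const, sum_const, smul_eq_mul, smul_eq_mul, mul_one]
      have h2 := cheap_count E L R u m m₀ hm₀ N l (by omega)
      have h3 : (text E L R u m l).card ≤ r := by
        rcases text_cases E L R u m l with ⟨v, hv⟩ | ⟨_, v, hv⟩
        · rw [hv]; exact hL v
        · rw [hv]; exact hR v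
      calc _ ≤ (2 * N * m₀ + N ^ 2) * r + r := Nat.add_le_add (Nat.mul_le_mul_right _ h2) h3
        _ = _ := by ring
    calc _ ≤ ∑ l ∈ grow (text E L R u m) k, r ^ cheap l * ((2 * N * m₀ + N ^ 2 + 1) * r) :=
          sum_le_sum hstep
      _ = (∑ l ∈ grow (text E L R u m) k, r ^ cheap l) * ((2 * N * m₀ + N ^ 2 + 1) * r) := by
          rw [sum_mul]
      _ ≤ ((2 * N * m₀ + N ^ 2 + 1) * r) ^ k * ((2 * N * m₀ + N ^ 2 + 1) * r) :=
          Nat.mul_le_mul_right _ (ih (by omega))
      _ = _ := (pow_succ _ _).symm

theorem touches_inl (g : Label n) : Touches (Sum.inl g.1) g := Or.inl rfl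
theorem touches_inr (g : Label n) : Touches (Sum.inr g.2) g := Or.inr rfl

/-- degree of a vertex in a list of labels -/
noncomputable def dg (l : List (Label n)) (α : Vtx n) : ℕ := l.countP (fun g => decide (Touches α g))

theorem dg_cons (g : Label n) (l : List (Label n)) (α : Vtx n) :
    dg (g :: l) α = dg l α + if Touches α g then 1 else 0 := by
  unfold dg
  rw [List.countP_cons]
  simp

theorem dg_append (l l' : List (Label n)) (α : Vtx n) :
    dg (l ++ l') α = dg l α + dg l' α := by
  unfold dg
  rw [List.countP_append]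

theorem sum_touches (g : Label n) : ∑ α : Vtx n, (if Touches α g then 1 else 0) = 2 := by
  rw [Fintype.sum_sum_type]
  have h1 : ∑ a : Fin n, (if Touches (Sum.inl a) g then 1 else 0) = 1 := by
    rw [sum_eq_single g.1]
    · rw [if_pos (touches_inl g)]
    · intro b _ hb
      rw [if_neg]
      rintro (h | h)
      · exact hb (Sum.inl.inj h)
      · exact absurd h (by simp)
    · intro h; exact absurd (mem_univ _) h
  have h2 : ∑ a : Fin n, (if Touches (Sum.inr a) g then 1 else 0) = 1 := by
    rw [sum_eq_single g.2]
    · rw [if_pos (touches_inr g)]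
    · intro b _ hb
      rw [if_neg]
      rintro (h | h)
      · exact absurd h (by simp)
      · exact hb (Sum.inr.inj h)
    · intro h; exact absurd (mem_univ _) h
  rw [h1, h2]

theorem sum_dg (l : List (Label n)) : ∑ α : Vtx n, dg l α = 2 * l.length := by
  induction l with
  | nil => simp [dg]
  | cons g l ih =>
    have : ∀ α, dg (g :: l) α = dg l α + if Touches α g then 1 else 0 := dg_cons g l
    simp only [this]
    rw [sum_add_distrib, ih, sum_touches, List.length_cons]
    ring

theorem dg_pos_iff (l : List (Label n)) (α : Vtx n) : 0 < dg l α ↔ ∃ g ∈ l, Touches α g := by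
  unfold dg
  rw [List.countP_pos_iff]
  simp

/-- number of touched vertices -/
noncomputable def seenc (l : List (Label n)) : ℕ :=
  ((univ : Finset (Vtx n)).filter (fun α => 0 < dg l α)).card

theorem dg_inl_pos_iff (l : List (Label n)) (a : Fin n) :
    0 < dg l (Sum.inl a) ↔ a ∈ l.map Prod.fst := by
  rw [dg_pos_iff, List.mem_map]
  constructor
  · rintro ⟨g, hg, h | h⟩
    · exact ⟨g, hg, (Sum.inl.inj h).symm⟩
    · exact absurd h (by simp)
  · rintro ⟨g, hg, rfl⟩
    exact ⟨g, hg, Or.inl rfl⟩

theorem dg_inr_pos_iff (l : List (Label n)) (a : Fin n) :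
    0 < dg l (Sum.inr a) ↔ a ∈ l.map Prod.snd := by
  rw [dg_pos_iff, List.mem_map]
  constructor
  · rintro ⟨g, hg, h | h⟩
    · exact absurd h (by simp)
    · exact ⟨g, hg, (Sum.inr.inj h).symm⟩
  · rintro ⟨g, hg, rfl⟩
    exact ⟨g, hg, Or.inr rfl⟩

theorem seenc_mono (g : Label n) (l : List (Label n)) : seenc l ≤ seenc (g :: l) := by
  refine card_le_card (fun α hα => ?_)
  rw [mem_filter] at hα ⊢
  refine ⟨mem_univ _, ?_⟩
  rw [dg_cons]; omega

theorem seenc_one (g : Label n) (l : List (Label n)) (h : ¬ Blocked l g) :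
    seenc l + 1 ≤ seenc (g :: l) := by
  refine Nat.succ_le_of_lt (card_lt_card ?_)
  have hsub : (univ : Finset (Vtx n)).filter (fun α => 0 < dg l α) ⊆
      (univ : Finset (Vtx n)).filter (fun α => 0 < dg (g :: l) α) := by
    intro α hα
    rw [mem_filter] at hα ⊢
    refine ⟨mem_univ _, ?_⟩
    rw [dg_cons]; omega
  rw [ssubset_iff_of_subset hsub]
  by_cases h1 : g.1 ∈ l.map Prod.fst
  · have h2 : g.2 ∉ l.map Prod.snd := fun h2 => h ⟨h1, h2⟩
    refine ⟨Sum.inr g.2, mem_filter.2 ⟨mem_univ _, ?_⟩, fun hc => ?_⟩
    · rw [dg_cons, if_pos (touches_inr g)]; omega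
    · exact h2 ((dg_inr_pos_iff l g.2).1 (mem_filter.1 hc).2)
  · refine ⟨Sum.inl g.1, mem_filter.2 ⟨mem_univ _, ?_⟩, fun hc => ?_⟩
    · rw [dg_cons, if_pos (touches_inl g)]; omega
    · exact h1 ((dg_inl_pos_iff l g.1).1 (mem_filter.1 hc).2)

theorem seenc_two (g : Label n) (l : List (Label n)) (h1 : g.1 ∉ l.map Prod.fst)
    (h2 : g.2 ∉ l.map Prod.snd) : seenc l + 2 ≤ seenc (g :: l) := by
  have hdisj : Disjoint ((univ : Finset (Vtx n)).filter (fun α => 0 < dg l α))
      ({Sum.inl g.1, Sum.inr g.2} : Finset (Vtx n)) := by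
    rw [disjoint_left]
    intro α hα hα2
    rw [mem_filter] at hα
    rw [mem_insert, mem_singleton] at hα2
    rcases hα2 with rfl | rfl
    · exact h1 ((dg_inl_pos_iff l g.1).1 hα.2)
    · exact h2 ((dg_inr_pos_iff l g.2).1 hα.2)
  have hcard : ({Sum.inl g.1, Sum.inr g.2} : Finset (Vtx n)).card = 2 :=
    card_pair (by simp)
  unfold seenc
  rw [← hcard, ← card_union_of_disjoint hdisj]
  refine card_le_card (fun α hα => ?_)
  rw [mem_union, mem_filter, mem_insert, mem_singleton] at hα
  rw [mem_filter, dg_cons]
  refine ⟨mem_univ _, ?_⟩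
  rcases hα with ⟨_, h⟩ | rfl | rfl
  · omega
  · rw [if_pos (touches_inl g)]; omega
  · rw [if_pos (touches_inr g)]; omega

theorem seen_cheap (l : List (Label n)) :
    3 * l.length + l.length % 2 ≤ 2 * seenc l + 4 * cheap l := by
  induction l with
  | nil => simp [cheap]
  | cons g l ih =>
    have hc : cheap (g :: l) = cheap l + if Cheap l g then 1 else 0 := rfl
    rw [hc, List.length_cons]
    have hmono := seenc_mono g l
    by_cases h : Cheap l g
    · rw [if_pos h]; omega
    · rw [if_neg h]
      unfold Cheap at h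
      by_cases he : Even l.length
      · rw [if_pos he, not_or] at h
        have := seenc_two g l h.1 h.2
        rw [Nat.even_iff] at he
        omega
      · rw [if_neg he] at h
        have := seenc_one g l h
        rw [Nat.not_even_iff] at he
        omega

theorem single_count (l : List (Label n)) :
    2 * seenc l ≤ ((univ : Finset (Vtx n)).filter (fun α => dg l α = 1)).card + 2 * l.length := by
  rw [← sum_dg, seenc, card_filter, card_filter, mul_sum, ← sum_add_distrib]
  refine sum_le_sum (fun α _ => ?_)
  split_ifs <;> omega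

/-- triples of lists with few cheap positions have private vertices on two different lists -/
theorem private_vertices (m : ℕ) (hm : Even m) (w : Fin 3 → List (Label n))
    (hw : ∀ i, (w i).length = m) (hc : 4 * cheap (w 2 ++ (w 1 ++ w 0)) < m) :
    ∃ a b : Fin 3, a ≠ b ∧ ∃ α β : Vtx n,
      (dg (w a) α = 1 ∧ ∀ i, i ≠ a → dg (w i) α = 0) ∧
      (dg (w b) β = 1 ∧ ∀ i, i ≠ b → dg (w i) β = 0) := by
  set l := w 2 ++ (w 1 ++ w 0) with hl
  have hlen : l.length = 3 * m := by
    rw [hl, List.length_append, List.length_append, hw, hw, hw]; ring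
  have hdg : ∀ α, dg l α = ∑ i, dg (w i) α := by
    intro α
    rw [hl, dg_append, dg_append, Fin.sum_univ_three]; ring
  have h1 := seen_cheap l
  have h2 := single_count l
  have h3 : l.length % 2 = 0 := by
    rw [hlen]; rw [Nat.even_iff] at hm; omega
  have h4 : 2 * m < ((univ : Finset (Vtx n)).filter (fun α => dg l α = 1)).card := by
    omega
  -- every vertex of degree one belongs to exactly one list
  have h5 : ∀ α, dg l α = 1 → ∃ i, dg (w i) α = 1 ∧ ∀ j, j ≠ i → dg (w j) α = 0 := by
    intro α hα
    rw [hdg, Fin.sum_univ_three] at hα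
    have hcases : (dg (w 0) α = 1 ∧ dg (w 1) α = 0 ∧ dg (w 2) α = 0) ∨
        (dg (w 0) α = 0 ∧ dg (w 1) α = 1 ∧ dg (w 2) α = 0) ∨
        (dg (w 0) α = 0 ∧ dg (w 1) α = 0 ∧ dg (w 2) α = 1) := by omega
    rcases hcases with ⟨c0, c1, c2⟩ | ⟨c0, c1, c2⟩ | ⟨c0, c1, c2⟩
    · refine ⟨0, c0, fun j hj => ?_⟩
      fin_cases j
      · exact absurd rfl hj
      · exact c1
      · exact c2
    · refine ⟨1, c1, fun j hj => ?_⟩
      fin_cases j
      · exact c0
      · exact absurd rfl hj
      · exact c2
    · refine ⟨2, c2, fun j hj => ?_⟩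
      fin_cases j
      · exact c0
      · exact c1
      · exact absurd rfl hj
  have h6 : ((univ : Finset (Vtx n)).filter (fun α => dg l α = 1)).Nonempty :=
    card_pos.1 (by omega)
  obtain ⟨α, hα⟩ := h6
  obtain ⟨a, ha1, ha2⟩ := h5 α (mem_filter.1 hα).2
  have h7 : ∃ β, dg l β = 1 ∧ dg (w a) β = 0 := by
    by_contra hcon
    push Not at hcon
    have h8 : ((univ : Finset (Vtx n)).filter (fun α => dg l α = 1)).card ≤
        ∑ β : Vtx n, dg (w a) β := by
      rw [card_filter]
      refine sum_le_sum (fun β _ => ?_)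
      split_ifs with h9
      · have := hcon β h9; omega
      · omega
    rw [sum_dg, hw] at h8
    omega
  obtain ⟨β, hβ1, hβ2⟩ := h7
  obtain ⟨b, hb1, hb2⟩ := h5 β hβ1
  refine ⟨a, b, ?_, α, β, ⟨ha1, ha2⟩, ⟨hb1, hb2⟩⟩
  rintro rfl
  omega

theorem append_mem_grow (E : Finset (Label n)) (L : Label n → V) (R : Label n → V') (u : V)
    (m : ℕ) (hm : Even m) (N : ℕ) (hN : m ∣ N) (l : List (Label n))
    (hl : l ∈ grow (text E L R u m) N) (k : ℕ) (hk : k ≤ m) (w : List (Label n))
    (hw : w ∈ grow (wext E L R u) k) : w ++ l ∈ grow (text E L R u m) (N + k) := by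
  have hlen := length_of_mem_grow _ _ _ hl
  induction k generalizing w with
  | zero =>
    have : w ∈ ({[]} : Finset (List (Label n))) := hw
    rw [mem_singleton] at this
    rw [this]; exact hl
  | succ k ih =>
    obtain ⟨g, w', rfl, h1, h2⟩ := exists_of_mem_grow_succ _ k w hw
    rw [List.cons_append, ← Nat.add_assoc, mem_grow_succ]
    refine ⟨ih (by omega) w' h1, ?_⟩
    have hlen' := length_of_mem_grow _ _ _ h1
    have hNeven : Even N := by
      obtain ⟨c, rfl⟩ := hN
      exact hm.mul_right c
    cases w' with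
    | nil =>
      have : m ∣ ([] ++ l).length := by rw [List.nil_append, hlen]; exact hN
      unfold text
      rw [if_pos this]
      exact h2
    | cons h t =>
      have hk0 : k = t.length + 1 := by rw [← hlen', List.length_cons]
      have : ¬ m ∣ (h :: t ++ l).length := by
        intro hd
        rw [List.length_append, hlen, List.length_cons, ← hk0] at hd
        have hd2 : m ∣ k := (Nat.dvd_add_left hN).1 hd
        have := Nat.le_of_dvd (by omega) hd2
        omega
      unfold text
      rw [if_neg this]
      have h3 : g ∈ (if Even t.length then E.filter (fun g => R g = R h)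
        else E.filter (fun g => L g = L h)) := h2
      show g ∈ (if Even (t ++ l).length then E.filter (fun g => R g = R h)
        else E.filter (fun g => L g = L h))
      have h4 : Even (t ++ l).length ↔ Even t.length := by
        rw [List.length_append, hlen, Nat.even_add]
        simp [hNeven]
      by_cases he : Even t.length
      · rw [if_pos he] at h3
        rw [if_pos (h4.2 he)]; exact h3
      · rw [if_neg he] at h3
        rw [if_neg (fun h => he (h4.1 h))]; exact h3

/-- left value of the newest label -/
def lastL (L : Label n → V) (w : List (Label n)) (v : V) : Prop :=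
  ∃ h t, w = h :: t ∧ L h = v

/-- The graph lemma: in a pruned graph there are three walks with common ends and private
vertices on two different walks. -/
theorem graph_lemma (E : Finset (Label n)) (L : Label n → V) (R : Label n → V')
    (p m₀ r D s : ℕ) (hp : 0 < p) (hr : 0 < r)
    (hE : E.Nonempty)
    (hdeg : ∀ g ∈ E, D ≤ (E.filter (fun g' => L g' = L g)).card ∧
      D ≤ (E.filter (fun g' => R g' = R g)).card)
    (hm₀ : ∀ (α : Vtx n) (v : V), (E.filter (fun g => L g = v ∧ Touches α g)).card ≤ m₀)
    (hL : ∀ v, (E.filter (fun g => L g = v)).card ≤ r)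
    (hR : ∀ v, (E.filter (fun g => R g = v)).card ≤ r)
    (hs : (E.image L).card ≤ s)
    (hnum : ((2 * (12 * p) * m₀ + (12 * p) ^ 2 + 1) * r) ^ (12 * p) * s ^ 3 <
      r ^ p * D ^ (12 * p)) :
    ∃ (u v : V) (w : Fin 3 → List (Label n)),
      (∀ i, w i ∈ grow (wext E L R u) (4 * p)) ∧ (∀ i, lastL L (w i) v) ∧
      ∃ a b : Fin 3, a ≠ b ∧ ∃ α β : Vtx n,
      (dg (w a) α = 1 ∧ ∀ i, i ≠ a → dg (w i) α = 0) ∧
      (dg (w b) β = 1 ∧ ∀ i, i ≠ b → dg (w i) β = 0) := by
  set m := 4 * p with hmdef
  have hm : Even m := ⟨2 * p, by omega⟩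
  obtain ⟨g₀, hg₀⟩ := hE
  set u := L g₀ with hu
  have hmany := many_walks E L R D hdeg g₀ hg₀ m
  rw [← hu] at hmany
  set W := grow (wext E L R u) m with hW
  -- the newest label of a walk
  have hne : ∀ w ∈ W, ∃ v ∈ E.image L, lastL L w v := by
    intro w hw
    have hlen := length_of_mem_grow _ _ _ hw
    cases w with
    | nil => rw [List.length_nil] at hlen; omega
    | cons h t =>
      refine ⟨L h, mem_image_of_mem _ ?_, h, t, rfl, rfl⟩
      exact grow_subset_E E _ (wext_subset E L R u) m _ hw h List.mem_cons_self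
  have hpig : ∃ v, D ^ m ≤ (W.filter (fun w => lastL L w v)).card * s := by
    by_contra hcon
    push Not at hcon
    have h1 : W ⊆ (E.image L).biUnion (fun v => W.filter (fun w => lastL L w v)) := by
      intro w hw
      obtain ⟨v, hv, hl⟩ := hne w hw
      rw [mem_biUnion]
      exact ⟨v, hv, mem_filter.2 ⟨hw, hl⟩⟩
    have h2 : W.card ≤ ∑ v ∈ E.image L, (W.filter (fun w => lastL L w v)).card :=
      (card_le_card h1).trans card_biUnion_le
    have h3 : 0 < (E.image L).card := card_pos.2 ⟨L g₀, mem_image_of_mem _ hg₀⟩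
    have h4 : (∑ v ∈ E.image L, (W.filter (fun w => lastL L w v)).card) * s <
        (E.image L).card * D ^ m := by
      rw [sum_mul, ← smul_eq_mul, ← sum_const]
      exact sum_lt_sum_of_nonempty (card_pos.1 h3) (fun v _ => hcon v)
    have h5 : (E.image L).card * D ^ m ≤ s * D ^ m := Nat.mul_le_mul_right _ hs
    have h6 : D ^ m * s ≤ (∑ v ∈ E.image L, (W.filter (fun w => lastL L w v)).card) * s :=
      Nat.mul_le_mul_right _ (hmany.trans h2)
    rw [mul_comm s] at h5
    omega
  obtain ⟨v, hv⟩ := hpig
  set Wv := W.filter (fun w => lastL L w v) with hWv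
  -- a triple with few cheap positions
  have hgood : ∃ w₀ ∈ Wv, ∃ w₁ ∈ Wv, ∃ w₂ ∈ Wv, 4 * cheap (w₂ ++ (w₁ ++ w₀)) < m := by
    by_contra hcon
    push Not at hcon
    set T := grow (text E L R u m) (m + m + m) with hT
    have hlenW : ∀ w ∈ Wv, w.length = m := fun w hw =>
      length_of_mem_grow _ _ _ (mem_filter.1 hw).1
    have hcard : (Wv ×ˢ (Wv ×ˢ Wv)).card ≤ (T.filter (fun l => p ≤ cheap l)).card := by
      refine card_le_card_of_injOn (fun q => q.1 ++ (q.2.1 ++ q.2.2)) ?_ ?_
      · intro q hq
        have hq' := mem_coe.1 hq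
        rw [mem_product, mem_product] at hq'
        obtain ⟨h1, h2, h3⟩ := hq'
        refine mem_coe.2 (mem_filter.2 ⟨?_, ?_⟩)
        · have hnil : ([] : List (Label n)) ∈ grow (text E L R u m) 0 :=
            mem_singleton.2 rfl
          have e1 := append_mem_grow E L R u m hm 0 (dvd_zero _) [] hnil m le_rfl q.2.2
            (mem_filter.1 h3).1
          rw [List.append_nil, zero_add] at e1
          have e2 := append_mem_grow E L R u m hm m dvd_rfl _ e1 m le_rfl q.2.1
            (mem_filter.1 h2).1
          exact append_mem_grow E L R u m hm (m + m) (dvd_add dvd_rfl dvd_rfl) _ e2 m le_rfl q.1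
            (mem_filter.1 h1).1
        · have := hcon q.2.2 h3 q.2.1 h2 q.1 h1
          show p ≤ cheap (q.1 ++ (q.2.1 ++ q.2.2))
          omega
      · intro q hq q' hq' h
        have hq1 := mem_coe.1 hq
        have hq2 := mem_coe.1 hq'
        rw [mem_product, mem_product] at hq1 hq2
        have h' : q.1 ++ (q.2.1 ++ q.2.2) = q'.1 ++ (q'.2.1 ++ q'.2.2) := h
        have e1 := List.append_inj h' (by rw [hlenW _ hq1.1, hlenW _ hq2.1])
        have e2 := List.append_inj e1.2 (by rw [hlenW _ hq1.2.1, hlenW _ hq2.2.1])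
        exact Prod.ext e1.1 (Prod.ext e2.1 e2.2)
    have hweight := weight_bound E L R u m m₀ r (m + m + m) hm₀ hL hR (m + m + m) le_rfl
    have h1 : r ^ p * (T.filter (fun l => p ≤ cheap l)).card ≤
        ∑ l ∈ T, r ^ cheap l := by
      calc r ^ p * (T.filter (fun l => p ≤ cheap l)).card
          = ∑ l ∈ T.filter (fun l => p ≤ cheap l), r ^ p := by
            rw [sum_const, smul_eq_mul, mul_comm]
        _ ≤ ∑ l ∈ T.filter (fun l => p ≤ cheap l), r ^ cheap l :=
            sum_le_sum (fun l hl => Nat.pow_le_pow_right hr (mem_filter.1 hl).2)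
        _ ≤ ∑ l ∈ T, r ^ cheap l := sum_le_sum_of_subset (filter_subset _ _)
    rw [card_product, card_product] at hcard
    have h12 : m + m + m = 12 * p := by omega
    rw [h12] at hweight
    have h2 : r ^ p * (D ^ m) ^ 3 ≤ r ^ p * (Wv.card * s) ^ 3 :=
      Nat.mul_le_mul_left _ (Nat.pow_le_pow_left hv 3)
    have h3 : r ^ p * (Wv.card * s) ^ 3 = (r ^ p * (Wv.card * (Wv.card * Wv.card))) * s ^ 3 := by
      ring
    have h4 : (r ^ p * (Wv.card * (Wv.card * Wv.card))) * s ^ 3 ≤
        (∑ l ∈ T, r ^ cheap l) * s ^ 3 :=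
      Nat.mul_le_mul_right _ ((Nat.mul_le_mul_left _ hcard).trans h1)
    have h5 : (D ^ m) ^ 3 = D ^ (12 * p) := by
      rw [← pow_mul]; congr 1; omega
    rw [hT, h12] at h4
    have h6 := Nat.mul_le_mul_right (s ^ 3) hweight
    rw [h5] at h2
    have := calc r ^ p * D ^ (12 * p) ≤ _ := h2
      _ = _ := h3
      _ ≤ _ := h4
      _ ≤ _ := h6
    exact absurd hnum (not_lt.2 this)
  obtain ⟨w₀, h0, w₁, h1, w₂, h2, hc⟩ := hgood
  set w : Fin 3 → List (Label n) := ![w₀, w₁, w₂] with hwdef
  have hw : ∀ i, w i ∈ Wv := by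
    intro i
    fin_cases i
    · exact h0
    · exact h1
    · exact h2
  refine ⟨u, v, w, fun i => (mem_filter.1 (hw i)).1, fun i => (mem_filter.1 (hw i)).2, ?_⟩
  exact private_vertices m hm w (fun i => length_of_mem_grow _ _ _ (mem_filter.1 (hw i)).1) hc

end Pool.H54.TSUM
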